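import Pool.Agent.Lib.MP_8f64b1_lc.Hard

/-!
Consequences for `coNP`.
-/

namespace Pool.Agent.Lib.MP_8f64b1_lc

open N68a2faeb N487b59b3 N793a5b8e Pool.Agent.Lib.PolyTime Pool.Agent.Lib.CookLevin

/-- `|w| ≤ p(|y|)` -/
noncomputable def leB (p : Polynomial ℕ) (w y : List Bool) : Bool :=
  decide (w.length ∈ List.range ((p + 1).eval y.length))

theorem leB_iff (p : Polynomial ℕ) (w y : List Bool) :
    leB p w y = true ↔ w.length ≤ p.eval y.length := by
  unfold leB
  rw [decide_eq_true_iff, List.mem_range, Polynomial.eval_add, Polynomial.eval_one]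
  omega

theorem pt_leB {α : Type} [N487b59b3 α] (p : Polynomial ℕ) {w y : α → List Bool}
    (hw : IsPolyTime w) (hy : IsPolyTime y) : IsPolyTime (fun a => leB p (w a) (y a)) := by
  unfold leB
  exact pt_mem (pt_length hw) (pt_range_poly (p + 1) hy)

theorem length_bitEncode_bits (x : List Bool) : (bitEncode x).length = 3 * x.length := sz_bits x

/-- a polynomial time map on words increases the length polynomially -/
theorem exists_length_bound {f : List Bool → List Bool} (hf : IsPolyTime f) :
    ∃ q : Polynomial ℕ, ∀ x, (f x).length ≤ q.eval x.length := by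
  obtain ⟨q, hq⟩ := exists_size hf
  refine ⟨q.comp (3 * Polynomial.X), fun x => ?_⟩
  have h1 := hq x
  rw [sz_bits, sz_bits] at h1
  rw [Polynomial.eval_comp]
  simp only [Polynomial.eval_mul, Polynomial.eval_ofNat, Polynomial.eval_X]
  omega

/-- `NP` is closed under polynomial time many-one reductions -/
theorem np_closed {A B : DecisionProblem} (h : ManyOneReducible A B) (hB : B ∈ NP) : A ∈ NP := by
  obtain ⟨f, hf, hAB⟩ := h
  obtain ⟨p, R, hR, hRB⟩ := hB
  obtain ⟨q, hq⟩ := exists_length_bound hf
  refine ⟨p.comp q, fun a => leB p a.2 (f a.1) && R (f a.1, a.2), ?_, ?_⟩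
  · have h1 : IsPolyTime (fun a : List Bool × List Bool => f a.1) := pt_comp hf pt_fst'
    exact pt_and (pt_leB p pt_snd' h1) (pt_comp hR (pt_pair h1 pt_snd'))
  · intro x
    rw [hAB x, hRB (f x)]
    constructor
    · rintro ⟨w, hw, hRw⟩
      refine ⟨w, ?_, ?_⟩
      · rw [Polynomial.eval_comp]
        exact hw.trans (eval_mono p (hq x))
      · simp only [Bool.and_eq_true, leB_iff]
        exact ⟨hw, hRw⟩
    · rintro ⟨w, _, hw⟩
      simp only [Bool.and_eq_true, leB_iff] at hw
      exact ⟨w, hw.1, hw.2⟩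

/-- `coNP` is closed under polynomial time many-one reductions -/
theorem conp_closed {A B : DecisionProblem} (h : ManyOneReducible A B) (hB : B ∈ coNP) :
    A ∈ coNP := by
  obtain ⟨f, hf, hAB⟩ := h
  refine np_closed (B := Bᶜ) ⟨f, hf, ?_⟩ hB
  intro x
  simp only [Pi.compl_apply, hAB x]

theorem np_subset_pi2 : NP ⊆ Pi2 := by
  rintro L ⟨q, R, hR, h⟩
  refine ⟨0, q, fun a => R (a.1, a.2.2), pt_comp hR (by fun_prop), ?_⟩
  intro x
  rw [h x]
  constructor
  · rintro ⟨w, hw⟩ u _
    exact ⟨w, hw⟩
  · intro h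
    exact h [] (by simp)

/-- if `NP = coNP` then `Π₂ᵖ ⊆ coNP` -/
theorem pi2_subset_conp (hnp : NP = coNP) : Pi2 ⊆ coNP := by
  classical
  rintro L ⟨p, q, R, hR, h⟩
  -- the language of pairs `(x, u)` such that some `w` is a witness
  set L' : DecisionProblem := fun y => decide (∃ a : List Bool × List Bool, y = bitEncode a ∧
    ∃ w : List Bool, w.length ≤ q.eval a.1.length ∧ R (a.1, a.2, w)) with hL'
  have hL'iff : ∀ y, L' y = true ↔ ∃ a : List Bool × List Bool, y = bitEncode a ∧
    ∃ w : List Bool, w.length ≤ q.eval a.1.length ∧ R (a.1, a.2, w) := by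
    intro y
    rw [hL']
    simp only [decide_eq_true_eq]
  have hL'np : L' ∈ NP := by
    refine ⟨q, fun b => (dec (List Bool × List Bool) b.1).any fun a =>
      leB q b.2 a.1 && R (a.1, a.2, b.2), ?_, ?_⟩
    · refine pt_any (by fun_prop) (pt_and (pt_leB q (by fun_prop) (by fun_prop)) ?_)
      exact pt_comp hR (by fun_prop)
    · intro y
      rw [hL'iff]
      constructor
      · rintro ⟨a, hy, w, hw, hRw⟩
        refine ⟨w, ?_, ?_⟩
        · refine hw.trans (eval_mono q ?_)
          have : y.length = 2 * sz a.1 + 1 + sz a.2 := by rw [hy]; exact sz_pair a.1 a.2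
          rw [this, sz_bits]
          omega
        · simp only [hy, dec_bitEncode, List.any_cons, List.any_nil, Bool.or_false,
            Bool.and_eq_true, leB_iff]
          exact ⟨hw, hRw⟩
      · rintro ⟨w, _, hw⟩
        simp only [List.any_eq_true, Bool.and_eq_true, leB_iff, mem_dec] at hw
        obtain ⟨a, ha, h1, h2⟩ := hw
        exact ⟨a, ha, w, h1, h2⟩
  rw [hnp] at hL'np
  obtain ⟨p', R', hR', h'⟩ := hL'np
  -- the certificate is the pair of `u` and the certificate of `(x, u) ∉ L'`
  set N : Polynomial ℕ := 6 * Polynomial.X + 1 + 3 * p with hN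
  refine ⟨6 * p + 1 + 3 * p'.comp N, fun b => (dec (List Bool × List Bool) b.2).any fun a =>
    leB p a.1 b.1 && (leB p' a.2 (bitEncode (b.1, a.1)) && R' (bitEncode (b.1, a.1), a.2)),
    ?_, ?_⟩
  · have e1 : IsPolyTime (fun x : (List Bool × List Bool) × (List Bool × List Bool) =>
      bitEncode (x.1.1, x.2.1)) := by fun_prop
    exact pt_any (by fun_prop) (pt_and (pt_leB p (by fun_prop) (by fun_prop))
      (pt_and (pt_leB p' (by fun_prop) e1) (pt_comp hR' (pt_pair e1 (by fun_prop)))))
  · intro x
    have hneg : Lᶜ x = true ↔ ¬ (L x = true) := by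
      simp
    rw [hneg, h x]
    push Not
    have hsub : ∀ u : List Bool, (∀ w : List Bool, w.length ≤ q.eval x.length →
        ¬ (R (x, u, w) = true)) ↔ L'ᶜ (bitEncode (x, u)) = true := by
      intro u
      have : L'ᶜ (bitEncode (x, u)) = true ↔ ¬ (L' (bitEncode (x, u)) = true) := by simp
      rw [this, hL'iff]
      constructor
      · rintro h1 ⟨a, ha, w, hw, hRw⟩
        have := bitEncode_injective ha
        subst this
        exact h1 w hw hRw
      · intro h1 w hw hRw
        exact h1 ⟨(x, u), rfl, w, hw, hRw⟩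
    constructor
    · rintro ⟨u, hu, h1⟩
      have h2 := (hsub u).mp (by simpa using h1)
      obtain ⟨w', hw', hRw'⟩ := (h' _).mp h2
      refine ⟨bitEncode (u, w'), ?_, ?_⟩
      · have e1 : (bitEncode (u, w')).length = 2 * sz u + 1 + sz w' := sz_pair u w'
        have e2 : (bitEncode (x, u)).length = 2 * sz x + 1 + sz u := sz_pair x u
        rw [sz_bits, sz_bits] at e1 e2
        have e3 : (bitEncode (x, u)).length ≤ N.eval x.length := by
          rw [e2, hN]
          simp only [Polynomial.eval_add, Polynomial.eval_mul, Polynomial.eval_ofNat,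
            Polynomial.eval_X, Polynomial.eval_one]
          omega
        have e4 := eval_mono p' e3
        rw [e1]
        simp only [Polynomial.eval_add, Polynomial.eval_mul, Polynomial.eval_ofNat,
          Polynomial.eval_one, Polynomial.eval_comp]
        omega
      · simp only [dec_bitEncode, List.any_cons, List.any_nil, Bool.or_false,
          Bool.and_eq_true, leB_iff]
        exact ⟨hu, hw', hRw'⟩
    · rintro ⟨v, _, hv⟩
      simp only [List.any_eq_true, Bool.and_eq_true, leB_iff] at hv
      obtain ⟨a, _, h1, h2, h3⟩ := hv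
      refine ⟨a.1, h1, ?_⟩
      have := (hsub a.1).mpr ((h' _).mpr ⟨a.2, h2, h3⟩)
      simpa using this

/-- KERNEL-PERFECTNESS is complete for `Π₂ᵖ`; it is in `coNP` iff `NP = coNP`. -/
theorem main : IsCompleteFor Pi2 KERNELPERFECTNESS ∧ (KERNELPERFECTNESS ∈ coNP ↔ NP = coNP) := by
  refine ⟨⟨mem_pi2, fun L hL => hard L hL⟩, ?_, ?_⟩
  · intro hk
    have h1 : NP ⊆ coNP := fun L hL => conp_closed (hard L (np_subset_pi2 hL)) hk
    refine Set.Subset.antisymm h1 ?_
    intro L hL
    have h2 : Lᶜᶜ ∈ NP := h1 hL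
    rwa [compl_compl] at h2
  · intro h
    exact pi2_subset_conp h mem_pi2

end Pool.Agent.Lib.MP_8f64b1_lc
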