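import Mathlib

/-!
Combinatorial core: a ring shaped digraph and the existence of kernels of its
induced subdigraphs.
-/

namespace Pool.Agent.Lib.MP_8f64b1_lc

/-- `K` is a kernel of the subdigraph induced by `A` on the vertex set `S`: it is a subset of `S`,
it is independent (no arc joins two of its vertices) and absorbing (every vertex of `S` outside `K`
has an arc into `K`). -/
def IsKernelOn {V : Type*} (A : V → V → Prop) (S K : Set V) : Prop :=
  K ⊆ S ∧ (∀ u ∈ K, ∀ v ∈ K, ¬ A u v) ∧ ∀ v ∈ S, v ∉ K → ∃ w ∈ K, A v w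

/-- Every digraph whose one-way arcs strictly decrease a rank function has a kernel. -/
theorem exists_kernel_of_rank {V : Type*} [Finite V] (A : V → V → Prop)
    (hirr : ∀ v, ¬ A v v) (ρ : V → ℕ) :
    ∀ (N : ℕ) (S : Set V), S.ncard ≤ N →
      (∀ u ∈ S, ∀ v ∈ S, A u v → ¬ A v u → ρ v < ρ u) → ∃ K, IsKernelOn A S K := by
  intro N
  induction N with
  | zero =>
    intro S hS _
    have : S = ∅ := by
      have := (Set.ncard_eq_zero (Set.toFinite S)).mp (Nat.le_zero.mp hS)
      exact this
    subst this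
    exact ⟨∅, by simp [IsKernelOn]⟩
  | succ N ih =>
    intro S hS h
    by_cases hne : S.Nonempty
    · obtain ⟨v, hvS, hvmin⟩ := Set.exists_min_image S ρ (Set.toFinite S) hne
      set S' : Set V := {u | u ∈ S ∧ u ≠ v ∧ ¬ A u v} with hS'
      have hsub : S' ⊆ S \ {v} := fun u hu => ⟨hu.1, by simpa using hu.2.1⟩
      have hcard : S'.ncard ≤ N := by
        have h1 : S'.ncard ≤ (S \ {v}).ncard := Set.ncard_le_ncard hsub (Set.toFinite _)
        have h2 : (S \ {v}).ncard = S.ncard - 1 := Set.ncard_sdiff_singleton_of_mem hvS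
        omega
      obtain ⟨K', hK'⟩ := ih S' hcard (fun u hu w hw => h u hu.1 w hw.1)
      refine ⟨insert v K', ?_, ?_, ?_⟩
      · intro u hu
        rcases hu with rfl | hu
        · exact hvS
        · exact (hK'.1 hu).1
      · intro a ha b hb hab
        rcases ha with rfl | ha
        · rcases hb with rfl | hb
          · exact hirr _ hab
          · have hb' := hK'.1 hb
            by_cases hba : A b a
            · exact hb'.2.2 hba
            · exact absurd (h a hvS b hb'.1 hab hba) (not_lt.mpr (hvmin b hb'.1))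
        · rcases hb with rfl | hb
          · exact (hK'.1 ha).2.2 hab
          · exact hK'.2.1 a ha b hb hab
      · intro u hu huK
        have huv : u ≠ v := fun h => huK (h ▸ Set.mem_insert _ _)
        by_cases huA : A u v
        · exact ⟨v, Set.mem_insert _ _, huA⟩
        · have : u ∈ S' := ⟨hu, huv, huA⟩
          obtain ⟨w, hw, huw⟩ := hK'.2.2 u this (fun h => huK (Set.mem_insert_of_mem _ h))
          exact ⟨w, Set.mem_insert_of_mem _ hw, huw⟩
    · have : S = ∅ := Set.not_nonempty_iff_eq_empty.mp hne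
      subst this
      exact ⟨∅, by simp [IsKernelOn]⟩

/-- The vertices of the ring digraph: for each pair index `i` the vertices
`w i c` (`c` a Boolean), `q i false`, `d i`, `q i true`, in this cyclic order. -/
inductive RV (n : ℕ) : Type
  | q (i : ZMod n) (b : Bool)
  | d (i : ZMod n)
  | w (i : ZMod n) (c : Bool)

namespace RV

variable {n : ℕ}

/-- Cyclic distance at most one. -/
def near (i j : ZMod n) : Prop := i = j ∨ i + 1 = j ∨ j + 1 = i

theorem near_comm {i j : ZMod n} : near i j ↔ near j i := by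
  unfold near
  constructor <;> (rintro (h | h | h) <;> simp [h])

theorem near_refl (i : ZMod n) : near i i := Or.inl rfl

/-- The two-way attachments of the `q` vertices. -/
def att (conf : ZMod n × Bool → ZMod n × Bool → Prop) (nxt : ZMod n → ZMod n → Prop) :
    ZMod n → Bool → RV n → Prop
  | _, _, q _ _ => False
  | i, false, d j => j ≠ i ∧ near j i
  | i, false, w j _ => j ≠ i ∧ (near j i ∨ nxt i j)
  | i, true, d j => j ≠ i ∧ near j (i + 1)
  | i, true, w j c => j ≠ i + 1 ∧ (near j (i + 1) ∨ ∃ c', conf (j, c) (i + 1, c'))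

/-- The arcs of the ring digraph. -/
def arc (conf : ZMod n × Bool → ZMod n × Bool → Prop) (nxt : ZMod n → ZMod n → Prop) :
    RV n → RV n → Prop
  | q i b, q j c => ¬ (i = j ∧ b = c)
  | d i, d j => i ≠ j ∧ near i j
  | d i, w j _ => near i j
  | w i _, d j => near i j
  | w i c, w j c' => (i, c) ≠ (j, c') ∧ (near i j ∨ conf (i, c) (j, c'))
  | w j c, q i false => j = i ∨ att conf nxt i false (w j c)
  | w j c, q i true => att conf nxt i true (w j c)
  | d j, q i false => att conf nxt i false (d j)
  | d j, q i true => j = i ∨ att conf nxt i true (d j)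
  | q i false, w j c => att conf nxt i false (w j c)
  | q i true, w j c => j = i + 1 ∨ att conf nxt i true (w j c)
  | q i false, d j => j = i ∨ att conf nxt i false (d j)
  | q i true, d j => att conf nxt i true (d j)

variable {conf : ZMod n × Bool → ZMod n × Bool → Prop} {nxt : ZMod n → ZMod n → Prop}

theorem arc_irrefl (v : RV n) : ¬ arc conf nxt v v := by
  cases v <;> simp [arc]

/-- The one-way arcs of the ring digraph. -/
theorem one_way (hconf : ∀ x y, conf x y → conf y x) {u v : RV n} (h : arc conf nxt u v)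
    (h' : ¬ arc conf nxt v u) :
    (∃ i c, u = w i c ∧ v = q i false) ∨ (∃ i, u = q i false ∧ v = d i) ∨
      (∃ i, u = d i ∧ v = q i true) ∨ (∃ i c, u = q i true ∧ v = w (i + 1) c) := by
  rcases u with ⟨i, b⟩ | i | ⟨i, c⟩ <;> rcases v with ⟨j, b'⟩ | j | ⟨j, c'⟩
  · exfalso; apply h'; simp only [arc] at h ⊢; tauto
  · cases b
    · simp only [arc] at h h'
      rcases h with rfl | h
      · right; left; exact ⟨j, rfl, rfl⟩
      · exact absurd h h'
    · simp only [arc] at h h'
      exact absurd (Or.inr h) h'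
  · cases b
    · simp only [arc] at h h'
      exact absurd (Or.inr h) h'
    · simp only [arc] at h h'
      rcases h with rfl | h
      · right; right; right; exact ⟨i, c', rfl, rfl⟩
      · exact absurd h h'
  · cases b'
    · simp only [arc] at h h'
      exact absurd (Or.inr h) h'
    · simp only [arc] at h h'
      rcases h with rfl | h
      · right; right; left; exact ⟨i, rfl, rfl⟩
      · exact absurd h h'
  · exfalso; apply h'; simp only [arc] at h ⊢; exact ⟨h.1.symm, near_comm.mp h.2⟩
  · exfalso; apply h'; simp only [arc] at h ⊢; exact near_comm.mp h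
  · cases b'
    · simp only [arc] at h h'
      rcases h with rfl | h
      · left; exact ⟨i, c, rfl, rfl⟩
      · exact absurd h h'
    · simp only [arc] at h h'
      exact absurd (Or.inr h) h'
  · exfalso; apply h'; simp only [arc] at h ⊢; exact near_comm.mp h
  · exfalso; apply h'; simp only [arc] at h ⊢
    refine ⟨h.1.symm, ?_⟩
    rcases h.2 with h2 | h2
    · exact Or.inl (near_comm.mp h2)
    · exact Or.inr (hconf _ _ h2)

/-- pair index and stage -/
def pr : RV n → ZMod n
  | q i _ => i
  | d i => i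
  | w i _ => i

/-- the stage of a vertex inside its pair -/
def st : RV n → ℕ
  | q _ false => 1
  | q _ true => 3
  | d _ => 2
  | w _ _ => 0

/-- distance (along the ring) to stage `c0` of pair `j` -/
def rk (j : ZMod n) (c0 : ℕ) (v : RV n) : ℕ :=
  if st v ≤ c0 then 4 * (j - pr v).val + c0 - st v
  else 4 * (j - pr v - 1).val + 4 + c0 - st v

/-- A vertex set is full if it contains all `q` and `d` vertices and for each pair index at least
one of the two `w` vertices. -/
def Full (S : Set (RV n)) : Prop :=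
  (∀ i b, q i b ∈ S) ∧ (∀ i, d i ∈ S) ∧ ∀ i, ∃ c, w i c ∈ S

instance [NeZero n] : Finite (RV n) := by
  have : Function.Injective (fun v : RV n =>
      (match v with
        | q i b => (Sum.inl (i, b) : (ZMod n × Bool) ⊕ (ZMod n ⊕ (ZMod n × Bool)))
        | d i => Sum.inr (Sum.inl i)
        | w i c => Sum.inr (Sum.inr (i, c)))) := by
    intro u v
    cases u <;> cases v <;> simp
  exact Finite.of_injective _ this

theorem val_sub_one [NeZero n] {a : ZMod n} (ha : a ≠ 0) : (a - 1).val = a.val - 1 := by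
  by_cases hn : n = 1
  · subst hn
    exact absurd (Subsingleton.elim _ _) ha
  · have : Fact (1 < n) := ⟨by have := NeZero.ne n; omega⟩
    have h1 : (1 : ZMod n).val = 1 := ZMod.val_one n
    have ha' : 1 ≤ a.val := by
      rcases Nat.eq_zero_or_pos a.val with h | h
      · exact absurd ((ZMod.val_eq_zero a).mp h) ha
      · exact h
    rw [ZMod.val_sub (by rw [h1]; exact ha'), h1]

theorem val_pos' [NeZero n] {a : ZMod n} (ha : a ≠ 0) : 1 ≤ a.val := by
  rcases Nat.eq_zero_or_pos a.val with h | h
  · exact absurd ((ZMod.val_eq_zero a).mp h) ha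
  · exact h

theorem st_le (v : RV n) : st v ≤ 3 := by
  rcases v with ⟨i, b⟩ | i | ⟨i, c⟩
  · cases b <;> simp [st]
  · simp [st]
  · simp [st]

theorem rk_lt [NeZero n] (j : ZMod n) (c0 : ℕ) (hc0 : c0 ≤ 3) (u v : RV n)
    (hst : (st v = st u + 1 ∧ pr v = pr u) ∨ (st u = 3 ∧ st v = 0 ∧ pr v = pr u + 1))
    (hmiss : ¬ (pr u = j ∧ st u = c0)) : rk j c0 v < rk j c0 u := by
  have hsu := st_le u
  have hne : st u = c0 → 1 ≤ (j - pr u).val ∧ (j - pr u - 1).val = (j - pr u).val - 1 := by
    intro h
    have hne : j - pr u ≠ 0 := fun h' => hmiss ⟨(sub_eq_zero.mp h').symm, h⟩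
    exact ⟨val_pos' hne, val_sub_one hne⟩
  unfold rk
  rcases hst with ⟨h1, h2⟩ | ⟨h1, h2, h3⟩
  · rw [h1, h2]
    by_cases ha : st u + 1 ≤ c0
    · rw [if_pos ha, if_pos (by omega)]
      omega
    · rw [if_neg ha]
      by_cases hb : st u ≤ c0
      · rw [if_pos hb]
        obtain ⟨h4, h5⟩ := hne (by omega)
        rw [h5]
        omega
      · rw [if_neg hb]
        omega
  · have hrw : j - (pr u + 1) = j - pr u - 1 := by ring
    rw [h1, h2, h3, hrw, if_pos (Nat.zero_le _)]
    by_cases hb : 3 ≤ c0
    · rw [if_pos hb]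
      obtain ⟨h4, h5⟩ := hne (by omega)
      rw [h5]
      omega
    · rw [if_neg hb]
      omega

theorem broken_has_kernel [NeZero n] (hconf : ∀ x y, conf x y → conf y x) (S : Set (RV n))
    (hS : ¬ Full S) : ∃ K, IsKernelOn (arc conf nxt) S K := by
  -- find the missing stage
  have key : ∃ (j : ZMod n) (c0 : ℕ), c0 ≤ 3 ∧ ∀ v ∈ S, ¬ (pr v = j ∧ st v = c0) := by
    unfold Full at hS
    rw [not_and_or, not_and_or] at hS
    rcases hS with h | h | h
    · push Not at h
      obtain ⟨i, b, hb⟩ := h
      refine ⟨i, st (q i b), by cases b <;> simp [st], ?_⟩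
      rintro v hv ⟨h1, h2⟩
      rcases v with ⟨i', b'⟩ | i' | ⟨i', c'⟩
      · simp only [pr] at h1
        subst h1
        have : b' = b := by cases b <;> cases b' <;> simp [st] at h2 ⊢
        subst this
        exact hb hv
      · cases b <;> simp [st] at h2
      · cases b <;> simp [st] at h2
    · push Not at h
      obtain ⟨i, hi⟩ := h
      refine ⟨i, 2, by norm_num, ?_⟩
      rintro v hv ⟨h1, h2⟩
      rcases v with ⟨i', b'⟩ | i' | ⟨i', c'⟩
      · cases b' <;> simp [st] at h2
      · simp only [pr] at h1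
        subst h1
        exact hi hv
      · simp [st] at h2
    · push Not at h
      obtain ⟨i, hi⟩ := h
      refine ⟨i, 0, by norm_num, ?_⟩
      rintro v hv ⟨h1, h2⟩
      rcases v with ⟨i', b'⟩ | i' | ⟨i', c'⟩
      · cases b' <;> simp [st] at h2
      · simp [st] at h2
      · simp only [pr] at h1
        subst h1
        exact hi c' hv
  obtain ⟨j, c0, hc0, hmiss⟩ := key
  refine exists_kernel_of_rank (arc conf nxt) arc_irrefl (rk j c0) S.ncard S le_rfl ?_
  intro u hu v hv huv hvu
  apply rk_lt j c0 hc0 u v _ (hmiss u hu)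
  rcases one_way hconf huv hvu with ⟨i, c, rfl, rfl⟩ | ⟨i, rfl, rfl⟩ | ⟨i, rfl, rfl⟩ |
    ⟨i, c, rfl, rfl⟩ <;> simp [st, pr]

/-- The combinatorial certificate for a kernel: a set `T` of `w` vertices. -/
def Cert (conf : ZMod n × Bool → ZMod n × Bool → Prop) (nxt : ZMod n → ZMod n → Prop)
    (X T : Set (ZMod n × Bool)) : Prop :=
  T ⊆ X ∧ T.Nonempty ∧
    (∀ x ∈ T, ∀ y ∈ T, x ≠ y → ¬ near x.1 y.1 ∧ ¬ conf x y) ∧
    ∀ x ∈ T, ∃ y ∈ T, nxt x.1 y.1 ∧ y.1 ≠ x.1

/-- From a certificate to a kernel. -/
theorem kernel_of_cert [NeZero n] (hconf : ∀ x y, conf x y → conf y x) (S : Set (RV n))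
    (T : Set (ZMod n × Bool))
    (hT : Cert conf nxt {x | w x.1 x.2 ∈ S} T) : ∃ K, IsKernelOn (arc conf nxt) S K := by
  obtain ⟨hTX, ⟨x0, hx0⟩, hind, hblk⟩ := hT
  set KT : Set (RV n) := {v | ∃ x ∈ T, v = w x.1 x.2} with hKT
  set U : Set (RV n) := {u | u ∈ S ∧ u ∉ KT ∧ ∀ x ∈ T, ¬ arc conf nxt u (w x.1 x.2)} with hU
  have hUb : ¬ Full U := by
    intro hF
    have h1 := hF.1 (x0.1 - 1) true
    apply h1.2.2 x0 hx0
    simp [arc]
  obtain ⟨K', hK'⟩ := broken_has_kernel (nxt := nxt) hconf U hUb
  refine ⟨KT ∪ K', ?_, ?_, ?_⟩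
  · rintro v (⟨x, hx, rfl⟩ | hv)
    · exact hTX hx
    · exact (hK'.1 hv).1
  · rintro a (⟨x, hx, rfl⟩ | ha) b (⟨y, hy, rfl⟩ | hb) hab
    · simp only [arc] at hab
      have hne : x ≠ y := hab.1
      obtain ⟨h1, h2⟩ := hind x hx y hy hne
      rcases hab.2 with h | h
      · exact h1 h
      · exact h2 h
    · have hbU := hK'.1 hb
      by_cases hba : arc conf nxt b (w x.1 x.2)
      · exact hbU.2.2 x hx hba
      · rcases one_way hconf hab hba with ⟨i, c, h1, h2⟩ | ⟨i, h1, h2⟩ | ⟨i, h1, h2⟩ |
          ⟨i, c, h1, h2⟩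
        · obtain ⟨y, hy, hn, hne⟩ := hblk x hx
          apply hbU.2.2 y hy
          rw [h2]
          simp only [RV.w.injEq] at h1
          rw [← h1.1]
          simp only [arc, att]
          exact ⟨hne, Or.inr hn⟩
        · cases h1
        · cases h1
        · cases h1
    · exact (hK'.1 ha).2.2 y hy hab
    · exact hK'.2.1 a ha b hb hab
  · intro v hv hvK
    by_cases h : ∃ x ∈ T, arc conf nxt v (w x.1 x.2)
    · obtain ⟨x, hx, hvx⟩ := h
      exact ⟨w x.1 x.2, Or.inl ⟨x, hx, rfl⟩, hvx⟩
    · push Not at h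
      have hvU : v ∈ U := ⟨hv, fun h' => hvK (Or.inl h'), h⟩
      obtain ⟨y, hy, hvy⟩ := hK'.2.2 v hvU (fun h' => hvK (Or.inr h'))
      exact ⟨y, Or.inr hy, hvy⟩

/-- From a kernel of a full vertex set to a certificate. -/
theorem cert_of_kernel [NeZero n] (hn : Odd n) (hn3 : 3 ≤ n)
    (hconf : ∀ x y, conf x y → conf y x)
    (S K : Set (RV n)) (hS : Full S) (hK : IsKernelOn (arc conf nxt) S K) :
    ∃ T, Cert conf nxt {x | w x.1 x.2 ∈ S} T := by
  obtain ⟨hKS, hind, habs⟩ := hK
  have h01 : (1 : ZMod n) ≠ 0 := by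
    have : Fact (1 < n) := ⟨by omega⟩
    exact one_ne_zero
  -- Step 1: no q vertex in K
  have hq : ∀ i b, q i b ∉ K := by
    intro i b hqK
    cases b
    · have hd : d i ∉ K := fun h => hind _ hqK _ h (by simp [arc])
      obtain ⟨u, hu, hdu⟩ := habs (d i) (hS.2.1 i) hd
      rcases u with ⟨j, b⟩ | j | ⟨j, c⟩
      · by_cases hh : j = i ∧ b = false
        · obtain ⟨rfl, rfl⟩ := hh
          simp [arc, att] at hdu
        · exact hind _ hu _ hqK (by simp only [arc]; exact hh)
      · simp only [arc] at hdu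
        exact hind _ hqK _ hu (by
          simp only [arc, att]
          exact Or.inr ⟨hdu.1.symm, near_comm.mp hdu.2⟩)
      · simp only [arc] at hdu
        by_cases hji : j = i
        · subst hji
          exact hind _ hu _ hqK (by simp [arc])
        · exact hind _ hqK _ hu (by
            simp only [arc, att]
            exact ⟨hji, Or.inl (near_comm.mp hdu)⟩)
    · obtain ⟨c, hc⟩ := hS.2.2 (i + 1)
      have hw : w (i + 1) c ∉ K := fun h => hind _ hqK _ h (by simp [arc])
      obtain ⟨u, hu, hwu⟩ := habs _ hc hw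
      rcases u with ⟨j, b⟩ | j | ⟨j, c'⟩
      · by_cases hh : j = i ∧ b = true
        · obtain ⟨rfl, rfl⟩ := hh
          simp [arc, att] at hwu
        · exact hind _ hu _ hqK (by simp only [arc]; exact hh)
      · simp only [arc] at hwu
        by_cases hji : j = i
        · subst hji
          exact hind _ hu _ hqK (by simp [arc])
        · exact hind _ hqK _ hu (by
            simp only [arc, att]
            exact ⟨hji, near_comm.mp hwu⟩)
      · simp only [arc] at hwu
        by_cases hji : j = i + 1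
        · subst hji
          exact hind _ hqK _ hu (by simp [arc])
        · refine hind _ hqK _ hu ?_
          simp only [arc, att]
          refine Or.inr ⟨hji, ?_⟩
          rcases hwu.2 with h | h
          · exact Or.inl (near_comm.mp h)
          · exact Or.inr ⟨c, hconf _ _ h⟩
  -- Step 4: w vertices in K
  have hw : ∀ i c, w i c ∈ K → ∃ j c', w j c' ∈ K ∧ nxt i j ∧ j ≠ i := by
    intro i c hwK
    obtain ⟨u, hu, hqu⟩ := habs (q i false) (hS.1 i false) (hq i false)
    rcases u with ⟨j, b⟩ | j | ⟨j, c'⟩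
    · exact absurd hu (hq j b)
    · exfalso
      simp only [arc, att] at hqu
      apply hind _ hwK _ hu
      simp only [arc]
      rcases hqu with rfl | h
      · exact near_refl _
      · exact near_comm.mp h.2
    · simp only [arc, att] at hqu
      rcases hqu with ⟨hne, h | h⟩
      · exfalso
        apply hind _ hwK _ hu
        simp only [arc]
        refine ⟨?_, Or.inl (near_comm.mp h)⟩
        intro h'
        rw [Prod.mk.injEq] at h'
        exact hne h'.1.symm
      · exact ⟨j, c', hu, h, hne⟩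
  -- Step 3: d vertices in K
  have hd : ∀ i, d i ∈ K → (d (i + 2) ∈ K ∨ ∃ j c, w j c ∈ K) := by
    intro i hdK
    obtain ⟨u, hu, hqu⟩ := habs (q i true) (hS.1 i true) (hq i true)
    rcases u with ⟨j, b⟩ | j | ⟨j, c'⟩
    · exact absurd hu (hq j b)
    · left
      simp only [arc, att] at hqu
      obtain ⟨hji, h⟩ := hqu
      rcases h with h | h | h
      · exfalso
        subst h
        exact hind _ hdK _ hu (by
          simp only [arc]
          refine ⟨?_, Or.inr (Or.inl rfl)⟩
          intro h
          exact h01 (by simpa using h))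
      · exfalso
        exact hji (add_right_cancel h)
      · have : j = i + 2 := by
          rw [← h]; ring
        rwa [this] at hu
    · right
      exact ⟨j, c', hu⟩
  -- K is nonempty
  have hKne : K.Nonempty := by
    obtain ⟨u, hu, _⟩ := habs (q 0 false) (hS.1 0 false) (hq 0 false)
    exact ⟨u, hu⟩
  -- Step 5
  have hWne : ∃ j c, w j c ∈ K := by
    by_contra hno
    obtain ⟨u, hu⟩ := hKne
    rcases u with ⟨j, b⟩ | j | ⟨j, c'⟩
    · exact hq j b hu
    · have hall : ∀ k : ℕ, d (j + 2 * (k : ZMod n)) ∈ K := by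
        intro k
        induction k with
        | zero => simpa using hu
        | succ k ih =>
          rcases hd _ ih with h | h
          · have : j + 2 * ((k + 1 : ℕ) : ZMod n) = j + 2 * (k : ZMod n) + 2 := by
              push_cast; ring
            rwa [this]
          · exact absurd h hno
      obtain ⟨k, hk⟩ := hn
      have h1 := hall (k + 1)
      have h2 : j + 2 * ((k + 1 : ℕ) : ZMod n) = j + 1 := by
        have h3 : ((2 * k + 1 : ℕ) : ZMod n) = 0 := by
          rw [← hk]; exact ZMod.natCast_self n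
        have h4 : (2 : ZMod n) * ((k + 1 : ℕ) : ZMod n) = ((2 * k + 1 : ℕ) : ZMod n) + 1 := by
          push_cast; ring
        rw [h4, h3, zero_add]
      rw [h2] at h1
      refine hind _ hu _ h1 ?_
      simp only [arc]
      refine ⟨?_, Or.inr (Or.inl rfl)⟩
      intro h
      exact h01 (by simpa using h)
    · exact hno ⟨j, c', hu⟩
  refine ⟨{x | w x.1 x.2 ∈ K}, fun x hx => hKS hx, ?_, ?_, ?_⟩
  · obtain ⟨j, c, h⟩ := hWne
    exact ⟨(j, c), h⟩
  · intro x hx y hy hne
    have h := hind _ hx _ hy
    simp only [arc, not_and, not_or] at h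
    exact h hne
  · intro x hx
    obtain ⟨j, c', h1, h2, h3⟩ := hw _ _ hx
    exact ⟨(j, c'), h1, h2, h3⟩

/-- Kernel-perfectness: every induced subdigraph has a kernel. -/
theorem kernelPerfect_iff [NeZero n] (hn : Odd n) (hn3 : 3 ≤ n)
    (hconf : ∀ x y, conf x y → conf y x) :
    (∀ S : Set (RV n), ∃ K, IsKernelOn (arc conf nxt) S K) ↔
      ∀ X : Set (ZMod n × Bool), (∀ i, ∃ c, (i, c) ∈ X) → ∃ T, Cert conf nxt X T := by
  constructor
  · intro h X hX
    set S : Set (RV n) := {v | ∀ i c, v = w i c → (i, c) ∈ X} with hS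
    obtain ⟨K, hK⟩ := h S
    have hF : Full S := by
      refine ⟨?_, ?_, ?_⟩
      · intro i b i' c' h; cases h
      · intro i i' c' h; cases h
      · intro i
        obtain ⟨c, hc⟩ := hX i
        refine ⟨c, ?_⟩
        intro i' c' h
        simp only [RV.w.injEq] at h
        rw [← h.1, ← h.2]; exact hc
    obtain ⟨T, hT⟩ := cert_of_kernel hn hn3 hconf S K hF hK
    refine ⟨T, ?_, hT.2⟩
    intro x hx
    exact hT.1 hx x.1 x.2 rfl
  · intro h S
    by_cases hF : Full S
    · obtain ⟨T, hT⟩ := h {x | w x.1 x.2 ∈ S} (fun i => hF.2.2 i)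
      exact kernel_of_cert hconf S T hT
    · exact broken_has_kernel hconf S hF

end RV

end Pool.Agent.Lib.MP_8f64b1_lc
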