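import Mathlib
import Pool.Prelude.Def_F_458e953d

/-!
Definitions for the statement: kernels, kernel-perfect digraphs, the decision problem
KERNEL-PERFECTNESS, the class `Π₂ᵖ`.
-/

namespace Pool.Agent.Lib.MP_8f64b1_lc

open N68a2faeb N487b59b3

/-- The class `Π₂ᵖ` of the polynomial hierarchy: `x ∈ L` iff for every word `u` with
`|u| ≤ p(|x|)` there is a word `w` with `|w| ≤ q(|x|)` and `R(x,u,w)`, where `p`, `q` are
polynomials and `R` is decidable in polynomial time. -/
def Pi2 : DecisionComplexityClass :=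
  { L | ∃ (p q : Polynomial ℕ) (R : List Bool × List Bool × List Bool → Bool), IsPolyTime R ∧
      ∀ x : List Bool, L x ↔ ∀ u : List Bool, u.length ≤ p.eval x.length →
        ∃ w : List Bool, w.length ≤ q.eval x.length ∧ R (x, u, w) }

/-- A vertex list and an arc list describe a digraph: no repeated vertex, no repeated arc,
every arc joins two distinct vertices. -/
structure IsDigraph (g : List ℕ × List (ℕ × ℕ)) : Prop where
  nodup_vertices : g.1.Nodup
  nodup_arcs : g.2.Nodup
  arcs : ∀ a ∈ g.2, a.1 ∈ g.1 ∧ a.2 ∈ g.1 ∧ a.1 ≠ a.2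

/-- `K` is a kernel of the subdigraph of `g` induced on the vertex set `S`: `K ⊆ S`,
no arc joins two vertices of `K`, and every vertex of `S` outside `K` has an arc into `K`. -/
structure IsKernel (g : List ℕ × List (ℕ × ℕ)) (S K : Finset ℕ) : Prop where
  subset : K ⊆ S
  independent : ∀ u ∈ K, ∀ v ∈ K, (u, v) ∉ g.2
  absorbing : ∀ v ∈ S, v ∉ K → ∃ w ∈ K, (v, w) ∈ g.2

/-- Every induced subdigraph has a kernel. -/
structure KernelPerfect (g : List ℕ × List (ℕ × ℕ)) : Prop where
  kernel : ∀ S : Finset ℕ, (∀ v ∈ S, v ∈ g.1) → ∃ K : Finset ℕ, IsKernel g S K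

open Classical in
/-- KERNEL-PERFECTNESS: the set of the words encoding (vertex list, arc list) of a kernel-perfect
digraph. -/
noncomputable def KERNELPERFECTNESS : DecisionProblem := fun x =>
  decide (∃ g : List ℕ × List (ℕ × ℕ), x = bitEncode g ∧ IsDigraph g ∧ KernelPerfect g)

end Pool.Agent.Lib.MP_8f64b1_lc
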