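import Pool.Agent.Lib.MP_8f64b1_lc.Formula
import Pool.Agent.Lib.MP_8f64b1_lc.Defs
import Pool.Agent.Lib.PolyTime.Main

/-!
The ring digraph as a vertex list and an arc list, computed in polynomial time.
-/

namespace Pool.Agent.Lib.MP_8f64b1_lc

open RV N68a2faeb N487b59b3 Pool.Agent.Lib.PolyTime

/-- slot data: `((present, isLit), (both, pol), (var, blk, nblk))` -/
abbrev Inf : Type := (Bool × Bool) × (Bool × Bool) × (ℕ × ℕ × ℕ)

/-- no slot -/
def infN : Inf := ((false, false), (false, false), (0, 0, 0))

/-- the data of a slot content -/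
def slotData : Slot → Bool × (Bool × Bool) × ℕ
  | none => (false, (false, false), 0)
  | some (v, none) => (true, (true, false), v)
  | some (v, some b) => (true, (false, b), v)

/-- cyclic successor of block numbers -/
def nx (m b : ℕ) : ℕ := if b + 1 = m then 0 else b + 1

/-- add the block numbers -/
def mkInf (m : ℕ) (d : Bool × (Bool × Bool) × ℕ) (b : ℕ) : Inf :=
  ((true, d.1), d.2.1, (d.2.2, b, nx m b))

/-- the data of the content of a pair -/
def encInf (m : ℕ) : Option (ℕ × Slot) → Inf
  | none => infN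
  | some (b, s) => mkInf m (slotData s) b

/-- the value of the literal -/
def valB (x : Inf) (c : Bool) : Bool := cond x.2.1.1 c x.2.1.2

/-- complementary literals -/
def confB (x : Inf) (c : Bool) (y : Inf) (c' : Bool) : Bool :=
  x.1.2 && y.1.2 && decide (x.2.2.1 = y.2.2.1) && decide (valB x c = !(valB y c'))

/-- the next block -/
def nxtB (x y : Inf) : Bool := x.1.1 && y.1.1 && decide (y.2.2.2.1 = x.2.2.2.2)

theorem litAt_iff (m : ℕ) (L : List (ℕ × Slot)) (x : ZMod (2 * L.length + 1) × Bool) (v : ℕ)
    (b : Bool) : litAt L x = some (v, b) ↔ (encInf m (info L x.1)).1.2 = true ∧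
      (encInf m (info L x.1)).2.2.1 = v ∧ valB (encInf m (info L x.1)) x.2 = b := by
  unfold litAt
  cases info L x.1 with
  | none => simp [encInf, infN]
  | some p =>
    obtain ⟨k, s⟩ := p
    rcases s with _ | ⟨w, _ | b'⟩
    · simp [encInf, mkInf, slotData, slotLit]
    · simp [encInf, mkInf, slotData, slotLit, valB]
    · simp [encInf, mkInf, slotData, slotLit, valB]

theorem confB_iff (m : ℕ) (L : List (ℕ × Slot)) (x y : ZMod (2 * L.length + 1) × Bool) :
    confB (encInf m (info L x.1)) x.2 (encInf m (info L y.1)) y.2 = true ↔ confL L x y := by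
  unfold confL confB
  simp only [litAt_iff m, Bool.and_eq_true, decide_eq_true_eq]
  constructor
  · rintro ⟨⟨⟨h1, h2⟩, h3⟩, h4⟩
    exact ⟨_, _, ⟨h1, rfl, rfl⟩, h2, h3.symm, by rw [h4]; simp⟩
  · rintro ⟨v, b, ⟨h1, h2, h3⟩, h4, h5, h6⟩
    exact ⟨⟨⟨h1, h4⟩, by rw [h2, h5]⟩, by rw [h3, h6]; simp⟩

theorem nx_mod {m b : ℕ} (h : b < m) : nx m b = (b + 1) % m := by
  unfold nx
  split_ifs with h1
  · rw [h1, Nat.mod_self]
  · rw [Nat.mod_eq_of_lt (by omega)]

theorem nxtB_iff (m : ℕ) (L : List (ℕ × Slot)) (hL : ∀ p ∈ L, p.1 < m)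
    (i j : ZMod (2 * L.length + 1)) :
    nxtB (encInf m (info L i)) (encInf m (info L j)) = true ↔ nxtL m L i j := by
  unfold nxtB nxtL
  simp only [Bool.and_eq_true, decide_eq_true_eq]
  cases hi : info L i with
  | none => simp [encInf, infN]
  | some p =>
    have hp : p.1 < m := by
      obtain ⟨t, ht, _, h⟩ := info_some hi
      exact hL p (h ▸ List.getElem_mem ht)
    cases hj : info L j with
    | none => simp [encInf, infN]
    | some p' =>
      simp only [encInf, mkInf, true_and, Option.mem_def, Option.some.injEq, exists_eq_left']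
      rw [nx_mod hp]

/-- vertex records: `(kind, (i, i + 1, i + 2), (data of i, data of i + 1))` -/
abbrev Rec : Type := (Bool × Bool × Bool) × (ℕ × ℕ × ℕ) × (Inf × Inf)

/-- cyclic nearness from numbers and successors -/
def nearB (i i1 j j1 : ℕ) : Bool := decide (i = j) || (decide (i1 = j) || decide (j1 = i))

/-- attachments of `q i b` (record `r`) to the vertex `s` of type `d` or `w` -/
def attB (r s : Rec) : Bool :=
  cond r.1.2.2
    (cond s.1.1
      (!(decide (s.2.1.1 = r.2.1.1)) && nearB s.2.1.1 s.2.1.2.1 r.2.1.2.1 r.2.1.2.2)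
      (!(decide (s.2.1.1 = r.2.1.2.1)) && (nearB s.2.1.1 s.2.1.2.1 r.2.1.2.1 r.2.1.2.2 ||
        (confB s.2.2.1 s.1.2.2 r.2.2.2 false || confB s.2.2.1 s.1.2.2 r.2.2.2 true))))
    (!(decide (s.2.1.1 = r.2.1.1)) && (nearB s.2.1.1 s.2.1.2.1 r.2.1.1 r.2.1.2.1 ||
      (!s.1.1 && nxtB r.2.2.1 s.2.2.1)))

/-- arcs between records -/
def adj (r s : Rec) : Bool :=
  cond r.1.1
    (cond r.1.2.1
      -- `r` is `q i b`
      (cond s.1.1
        (cond s.1.2.1
          (!(decide (r.2.1.1 = s.2.1.1) && decide (r.1.2.2 = s.1.2.2)))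
          (cond r.1.2.2 (attB r s) (decide (s.2.1.1 = r.2.1.1) || attB r s)))
        (cond r.1.2.2 (decide (s.2.1.1 = r.2.1.2.1) || attB r s) (attB r s)))
      -- `r` is `d i`
      (cond s.1.1
        (cond s.1.2.1
          (cond s.1.2.2 (decide (r.2.1.1 = s.2.1.1) || attB s r) (attB s r))
          (!(decide (r.2.1.1 = s.2.1.1)) && nearB r.2.1.1 r.2.1.2.1 s.2.1.1 s.2.1.2.1))
        (nearB r.2.1.1 r.2.1.2.1 s.2.1.1 s.2.1.2.1)))
    -- `r` is `w i c`
    (cond s.1.1
      (cond s.1.2.1
        (cond s.1.2.2 (attB s r) (decide (r.2.1.1 = s.2.1.1) || attB s r))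
        (nearB r.2.1.1 r.2.1.2.1 s.2.1.1 s.2.1.2.1))
      (!(decide (r.2.1.1 = s.2.1.1) && decide (r.1.2.2 = s.1.2.2)) &&
        (nearB r.2.1.1 r.2.1.2.1 s.2.1.1 s.2.1.2.1 || confB r.2.2.1 r.1.2.2 s.2.2.1 s.1.2.2)))

variable (m : ℕ) (L : List (ℕ × Slot))

/-- common part of the records for index `i` -/
def recTail (i : ZMod (2 * L.length + 1)) : (ℕ × ℕ × ℕ) × (Inf × Inf) :=
  ((i.val, (i + 1).val, (i + 1 + 1).val), (encInf m (info L i), encInf m (info L (i + 1))))

/-- the record of a vertex -/
def enc : RV (2 * L.length + 1) → Rec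
  | .q i b => ((true, true, b), recTail m L i)
  | .d i => ((true, false, false), recTail m L i)
  | .w i c => ((false, false, c), recTail m L i)

variable {m L}

theorem val_eq_iff {i j : ZMod (2 * L.length + 1)} : i.val = j.val ↔ i = j :=
  ⟨fun h => ZMod.val_injective _ h, fun h => by rw [h]⟩

theorem enc_injective : Function.Injective (enc m L) := by
  intro x y h
  rcases x with ⟨i, b⟩ | i | ⟨i, c⟩ <;> rcases y with ⟨j, b'⟩ | j | ⟨j, c'⟩ <;>
    simp only [enc, recTail, Prod.mk.injEq, val_eq_iff] at h <;> simp_all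

theorem nearB_iff {i j : ZMod (2 * L.length + 1)} :
    nearB i.val (i + 1).val j.val (j + 1).val = true ↔ near i j := by
  unfold nearB near
  simp only [Bool.or_eq_true, decide_eq_true_eq, val_eq_iff]

theorem attB_iff (hL : ∀ p ∈ L, p.1 < m) (i : ZMod (2 * L.length + 1)) (b : Bool)
    (y : RV (2 * L.length + 1)) (hy : ∀ j c, y ≠ .q j c) :
    attB (enc m L (.q i b)) (enc m L y) = true ↔ att (confL L) (nxtL m L) i b y := by
  rcases y with ⟨j, b'⟩ | j | ⟨j, c⟩
  · exact absurd rfl (hy j b')
  · cases b
    · simp only [attB, enc, recTail, cond_true, cond_false, att, Bool.and_eq_true,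
        Bool.or_eq_true, Bool.not_eq_true', decide_eq_false_iff_not, val_eq_iff, nearB_iff,
        Bool.not_true, Bool.false_and, Bool.false_eq_true, or_false, ne_eq]
    · simp only [attB, enc, recTail, cond_true, att, Bool.and_eq_true,
        Bool.not_eq_true', decide_eq_false_iff_not, val_eq_iff, nearB_iff, ne_eq]
  · cases b
    · simp only [attB, enc, recTail, cond_false, att, Bool.and_eq_true,
        Bool.or_eq_true, Bool.not_eq_true', decide_eq_false_iff_not, val_eq_iff, nearB_iff,
        Bool.not_false, Bool.true_and, ne_eq, nxtB_iff m L hL]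
    · have h1 := confB_iff m L (j, c) (i + 1, false)
      have h2 := confB_iff m L (j, c) (i + 1, true)
      simp only at h1 h2
      simp only [attB, enc, recTail, cond_true, cond_false, att, Bool.and_eq_true,
        Bool.or_eq_true, Bool.not_eq_true', decide_eq_false_iff_not, val_eq_iff, nearB_iff,
        ne_eq, h1, h2, Bool.exists_bool]

theorem adj_iff (hL : ∀ p ∈ L, p.1 < m) (x y : RV (2 * L.length + 1)) :
    adj (enc m L x) (enc m L y) = true ↔ arc (confL L) (nxtL m L) x y := by
  have hatt : ∀ i b (y : RV (2 * L.length + 1)), (∀ j c, y ≠ .q j c) →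
    (attB (enc m L (.q i b)) (enc m L y) = true ↔ att (confL L) (nxtL m L) i b y) :=
    fun i b y hy => attB_iff hL i b y hy
  rcases x with ⟨i, b⟩ | i | ⟨i, c⟩ <;> rcases y with ⟨j, b'⟩ | j | ⟨j, c'⟩
  · simp only [adj, enc, recTail, cond_true, Bool.not_eq_true', Bool.and_eq_false_iff,
      decide_eq_false_iff_not, val_eq_iff, arc, not_and_or]
    all_goals (cases b <;> cases b' <;> simp)
  · have h := hatt i b (.d j) (by simp)
    cases b
    · simp only [arc, ← h]
      simp only [adj, enc, recTail, cond_true, cond_false, Bool.or_eq_true, decide_eq_true_eq,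
        val_eq_iff]
    · simp only [arc, ← h]
      simp only [adj, enc, recTail, cond_true, cond_false]
  · have h := hatt i b (.w j c') (by simp)
    cases b
    · simp only [arc, ← h]
      simp only [adj, enc, recTail, cond_true, cond_false]
    · simp only [arc, ← h]
      simp only [adj, enc, recTail, cond_true, cond_false, Bool.or_eq_true, decide_eq_true_eq,
        val_eq_iff]
  · have h := hatt j b' (.d i) (by simp)
    cases b'
    · simp only [arc, ← h]
      simp only [adj, enc, recTail, cond_true, cond_false]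
    · simp only [arc, ← h]
      simp only [adj, enc, recTail, cond_true, cond_false, Bool.or_eq_true, decide_eq_true_eq,
        val_eq_iff]
  · simp only [adj, enc, recTail, cond_true, cond_false, Bool.and_eq_true, Bool.not_eq_true',
      decide_eq_false_iff_not, val_eq_iff, nearB_iff, arc, ne_eq]
  · simp only [adj, enc, recTail, cond_true, cond_false, nearB_iff, arc]
  · have h := hatt j b' (.w i c) (by simp)
    cases b'
    · simp only [arc, ← h]
      simp only [adj, enc, recTail, cond_true, cond_false, Bool.or_eq_true, decide_eq_true_eq,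
        val_eq_iff]
    · simp only [arc, ← h]
      simp only [adj, enc, recTail, cond_true, cond_false]
  · simp only [adj, enc, recTail, cond_true, cond_false, nearB_iff, arc]
  · have h := confB_iff m L (i, c) (j, c')
    simp only at h
    simp only [adj, enc, recTail, cond_false, Bool.and_eq_true, Bool.not_eq_true',
      Bool.and_eq_false_iff, Bool.or_eq_true, decide_eq_false_iff_not, val_eq_iff, nearB_iff, arc,
      h, ne_eq, Prod.mk.injEq, not_and_or]
    all_goals (cases c <;> cases c' <;> simp)

end Pool.Agent.Lib.MP_8f64b1_lc
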