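import Pool.Agent.Lib.MP_8f64b1_lc.Core

/-!
The ring digraph of a quantified formula `∀ X ∃ Y φ`.
-/

namespace Pool.Agent.Lib.MP_8f64b1_lc

open RV

/-- Truth of `∀ (variables in U) ∃ (all other variables) φ`, where `φ` is a CNF given as a list of
clauses, a clause is a list of literals, and the literal `(v, b)` is true if variable `v` has
value `b`. -/
def AESat (U : List ℕ) (φ : List (List (ℕ × Bool))) : Prop :=
  ∀ α : ℕ → Bool, ∃ β : ℕ → Bool, (∀ v ∈ U, β v = α v) ∧ ∀ c ∈ φ, ∃ l ∈ c, β l.1 = l.2

/-- content of a slot: `none` is a literal that is always true, `some (v, some b)` the literal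
`(v, b)`, and `some (v, none)` both literals of `v`. -/
abbrev Slot := Option (ℕ × Option Bool)

/-- The blocks of the formula. -/
def blocks (U : List ℕ) (φ : List (List (ℕ × Bool))) : List (List Slot) :=
  [none] :: [none] :: ((U.map fun x => [some (x, none)]) ++
    φ.map fun c => c.map fun l => some (l.1, some l.2))

/-- The slots with their block numbers. -/
def slots (B : List (List Slot)) : List (ℕ × Slot) :=
  B.zipIdx.flatMap fun p => p.1.map fun s => (p.2, s)

theorem mem_slots {B : List (List Slot)} {k : ℕ} {s : Slot} :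
    (k, s) ∈ slots B ↔ ∃ h : k < B.length, s ∈ B[k] := by
  unfold slots
  simp only [List.mem_flatMap, List.mem_map, Prod.mk.injEq, List.mem_zipIdx_iff_getElem?]
  constructor
  · rintro ⟨⟨b, k'⟩, h, s', hs', h1, h2⟩
    simp only at h h1 h2 hs'
    subst h1 h2
    obtain ⟨hlt, heq⟩ := List.getElem?_eq_some_iff.mp h
    exact ⟨hlt, heq ▸ hs'⟩
  · rintro ⟨h, hs⟩
    exact ⟨(B[k], k), by simp [h], s, hs, rfl, rfl⟩

/-- The content of pair `i`. -/
def info (L : List (ℕ × Slot)) (i : ZMod (2 * L.length + 1)) : Option (ℕ × Slot) :=
  if i.val % 2 = 1 then L[i.val / 2]? else none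

/-- The literal carried by a slot content and a Boolean. -/
def slotLit : Slot → Bool → Option (ℕ × Bool)
  | none, _ => none
  | some (v, some b), _ => some (v, b)
  | some (v, none), c => some (v, c)

/-- The literal carried by vertex `w i c`. -/
def litAt (L : List (ℕ × Slot)) (x : ZMod (2 * L.length + 1) × Bool) : Option (ℕ × Bool) :=
  (info L x.1).bind fun p => slotLit p.2 x.2

/-- complementary literals -/
def confL (L : List (ℕ × Slot)) (x y : ZMod (2 * L.length + 1) × Bool) : Prop :=
  ∃ v b, litAt L x = some (v, b) ∧ litAt L y = some (v, !b)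

/-- the block of `j` follows the block of `i` (cyclically, `m` blocks) -/
def nxtL (m : ℕ) (L : List (ℕ × Slot)) (i j : ZMod (2 * L.length + 1)) : Prop :=
  ∃ p ∈ info L i, ∃ p' ∈ info L j, p'.1 = (p.1 + 1) % m

theorem confL_symm (L : List (ℕ × Slot)) (x y : ZMod (2 * L.length + 1) × Bool)
    (h : confL L x y) : confL L y x := by
  obtain ⟨v, b, h1, h2⟩ := h
  exact ⟨v, !b, h2, by simpa using h1⟩

/-- the pair index of slot number `t` -/
def slotIdx (L : List (ℕ × Slot)) (t : ℕ) : ZMod (2 * L.length + 1) := ((2 * t + 1 : ℕ) : ZMod _)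

theorem slotIdx_val {L : List (ℕ × Slot)} {t : ℕ} (ht : t < L.length) :
    (slotIdx L t).val = 2 * t + 1 := by
  unfold slotIdx
  rw [ZMod.val_natCast, Nat.mod_eq_of_lt (by omega)]

theorem info_slotIdx {L : List (ℕ × Slot)} {t : ℕ} (ht : t < L.length) :
    info L (slotIdx L t) = some L[t] := by
  unfold info
  rw [slotIdx_val ht, if_pos (by omega)]
  have : (2 * t + 1) / 2 = t := by omega
  rw [this]
  simp [ht]

theorem info_some {L : List (ℕ × Slot)} {i : ZMod (2 * L.length + 1)} {p : ℕ × Slot}
    (h : info L i = some p) : ∃ t, ∃ ht : t < L.length, i = slotIdx L t ∧ L[t] = p := by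
  unfold info at h
  split_ifs at h with h1
  obtain ⟨hlt, heq⟩ := List.getElem?_eq_some_iff.mp h
  refine ⟨i.val / 2, hlt, ?_, heq⟩
  apply ZMod.val_injective
  rw [slotIdx_val hlt]
  omega

theorem not_near_slotIdx {L : List (ℕ × Slot)} {t t' : ℕ} (ht : t < L.length)
    (ht' : t' < L.length) (hne : t ≠ t') : ¬ near (slotIdx L t) (slotIdx L t') := by
  have key : ∀ a b : ℕ, a < L.length → b < L.length → slotIdx L a + 1 ≠ slotIdx L b := by
    intro a b ha hb h
    have h1 : ((2 * a + 2 : ℕ) : ZMod (2 * L.length + 1)) = ((2 * b + 1 : ℕ) : ZMod _) := by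
      have : ((2 * a + 2 : ℕ) : ZMod (2 * L.length + 1)) = slotIdx L a + 1 := by
        unfold slotIdx
        push_cast; ring
      rw [this, h]; rfl
    rw [ZMod.natCast_eq_natCast_iff'] at h1
    have h2 : (2 * b + 1) % (2 * L.length + 1) = 2 * b + 1 := Nat.mod_eq_of_lt (by omega)
    have h3 : (2 * a + 2) % (2 * L.length + 1) = 2 * a + 2 := Nat.mod_eq_of_lt (by omega)
    omega
  rintro (h | h | h)
  · have := congrArg ZMod.val h
    rw [slotIdx_val ht, slotIdx_val ht'] at this
    omega
  · exact key t t' ht ht' h
  · exact key t' t ht' ht h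

variable (U : List ℕ) (φ : List (List (ℕ × Bool)))

/-- The slot list of the formula. -/
def fslots : List (ℕ × Slot) := slots (blocks U φ)

/-- The digraph of the formula. -/
def farc : RV (2 * (fslots U φ).length + 1) → RV (2 * (fslots U φ).length + 1) → Prop :=
  arc (confL (fslots U φ)) (nxtL (blocks U φ).length (fslots U φ))

theorem length_blocks : (blocks U φ).length = 2 + U.length + φ.length := by
  simp [blocks]; omega

theorem mem_block0 : none ∈ (blocks U φ)[0]'(by rw [length_blocks]; omega) := by
  simp [blocks]

theorem mem_block1 : none ∈ (blocks U φ)[1]'(by rw [length_blocks]; omega) := by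
  simp [blocks]

theorem block_univ {x : ℕ} (hx : x < U.length) :
    (blocks U φ)[x + 2]'(by rw [length_blocks]; omega) = [some (U[x], none)] := by
  simp only [blocks, List.getElem_cons_succ]
  rw [List.getElem_append_left (by simpa using hx)]
  simp

theorem block_clause {j : ℕ} (hj : j < φ.length) :
    (blocks U φ)[U.length + j + 2]'(by rw [length_blocks]; omega) =
      φ[j].map fun l => some (l.1, some l.2) := by
  simp only [blocks, List.getElem_cons_succ]
  rw [List.getElem_append_right (by simp)]
  simp

theorem two_le_length : 2 ≤ (fslots U φ).length := by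
  have h0 : ((0 : ℕ), (none : Slot)) ∈ fslots U φ :=
    mem_slots.mpr ⟨by rw [length_blocks]; omega, mem_block0 U φ⟩
  have h1 : ((1 : ℕ), (none : Slot)) ∈ fslots U φ :=
    mem_slots.mpr ⟨by rw [length_blocks]; omega, mem_block1 U φ⟩
  by_contra hlt
  rcases hL : fslots U φ with _ | ⟨a, _ | ⟨b, l⟩⟩
  · rw [hL] at h0; simp at h0
  · rw [hL] at h0 h1
    simp only [List.mem_singleton] at h0 h1
    rw [← h1] at h0
    simp at h0
  · rw [hL] at hlt
    simp at hlt

theorem slot_univ {t b v : ℕ} (ht : t < (fslots U φ).length)
    (h : (fslots U φ)[t] = (b, some (v, none))) :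
    ∃ x, ∃ hx : x < U.length, b = x + 2 ∧ U[x] = v := by
  have hmem : (b, some (v, none)) ∈ slots (blocks U φ) := by
    have := List.getElem_mem ht
    rw [h] at this
    exact this
  obtain ⟨hlt, hs⟩ := mem_slots.mp hmem
  have hm := length_blocks U φ
  by_cases hb2 : b < 2
  · exfalso
    interval_cases b
    · simp [blocks] at hs
    · simp [blocks] at hs
  · by_cases hbk : b < U.length + 2
    · obtain ⟨x, rfl⟩ : ∃ x, b = x + 2 := ⟨b - 2, by omega⟩
      have hx : x < U.length := by omega
      rw [block_univ U φ hx] at hs
      simp only [List.mem_singleton, Option.some.injEq, Prod.mk.injEq, and_true] at hs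
      exact ⟨x, hx, rfl, hs.symm⟩
    · exfalso
      obtain ⟨j, rfl⟩ : ∃ j, b = U.length + j + 2 := ⟨b - U.length - 2, by omega⟩
      have hj : j < φ.length := by omega
      rw [block_clause U φ hj] at hs
      simp at hs

theorem cert_iff (hU : U.Nodup) :
    (∀ X : Set (ZMod (2 * (fslots U φ).length + 1) × Bool), (∀ i, ∃ c, (i, c) ∈ X) →
      ∃ T, Cert (confL (fslots U φ)) (nxtL (blocks U φ).length (fslots U φ)) X T) ↔
    AESat U φ := by
  set L := fslots U φ with hL
  have hm : (blocks U φ).length = 2 + U.length + φ.length := length_blocks U φ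
  constructor
  · intro h α
    set X : Set (ZMod (2 * L.length + 1) × Bool) :=
      {x | ∀ kk v, info L x.1 = some (kk, some (v, none)) → x.2 = α v} with hX
    have hXall : ∀ i, ∃ c, (i, c) ∈ X := by
      intro i
      by_cases hi : ∃ kk v, info L i = some (kk, some (v, none))
      · obtain ⟨kk, v, hv⟩ := hi
        refine ⟨α v, ?_⟩
        intro kk' v' hv'
        simp only at hv'
        rw [hv] at hv'
        simp only [Option.some.injEq, Prod.mk.injEq] at hv'
        rw [hv'.2.1]
      · refine ⟨true, ?_⟩
        intro kk v hv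
        exact absurd ⟨kk, v, hv⟩ hi
    obtain ⟨T, hTX, ⟨x0, hx0⟩, hind, hblk⟩ := h X hXall
    -- T hits all blocks
    have hhit : ∀ b < (blocks U φ).length, ∃ x ∈ T, ∃ s, info L x.1 = some (b, s) := by
      obtain ⟨y0, hy0, ⟨p, hp, p', hp', hpp⟩, _⟩ := hblk x0 hx0
      have hstep : ∀ r : ℕ, ∃ x ∈ T, ∃ s, info L x.1 =
          some ((p.1 + r) % (blocks U φ).length, s) := by
        intro r
        induction r with
        | zero =>
          refine ⟨x0, hx0, p.2, ?_⟩
          have hp1 : info L x0.1 = some p := hp
          rw [hp1]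
          have hlt : p.1 < (blocks U φ).length := by
            obtain ⟨t, ht, _, hteq⟩ := info_some hp1
            have : (p.1, p.2) ∈ slots (blocks U φ) := by
              have := List.getElem_mem ht
              rw [hteq] at this
              exact this
            exact (mem_slots.mp this).1
          rw [Nat.add_zero, Nat.mod_eq_of_lt hlt]
        | succ r ih =>
          obtain ⟨x, hx, s, hs⟩ := ih
          obtain ⟨y, hy, ⟨p1, hp1, p2, hp2, h12⟩, _⟩ := hblk x hx
          refine ⟨y, hy, p2.2, ?_⟩
          have e1 : info L x.1 = some p1 := hp1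
          have e2 : info L y.1 = some p2 := hp2
          rw [hs] at e1
          simp only [Option.some.injEq] at e1
          rw [e2, ← Prod.mk.eta (p := p2), h12, ← e1]
          simp only [Nat.mod_add_mod]
          rfl
      intro b hb
      obtain ⟨x, hx, s, hs⟩ := hstep (b + (blocks U φ).length * p.1 - p.1)
      refine ⟨x, hx, s, ?_⟩
      rw [hs]
      have h1 : p.1 + (b + (blocks U φ).length * p.1 - p.1) = b + (blocks U φ).length * p.1 := by
        have : p.1 ≤ (blocks U φ).length * p.1 := by
          have : 1 ≤ (blocks U φ).length := by omega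
          nlinarith
        omega
      rw [h1, Nat.add_mul_mod_self_left, Nat.mod_eq_of_lt hb]
    classical
    set β : ℕ → Bool := fun v => if v ∈ U then α v else decide (∃ x ∈ T, litAt L x = some (v, true))
      with hβ
    have huniv : ∀ v, v ∈ U → ∃ x ∈ T, litAt L x = some (v, α v) := by
      intro v hvU
      obtain ⟨i, hi, rfl⟩ := List.getElem_of_mem hvU
      obtain ⟨x, hx, s, hs⟩ := hhit (i + 2) (by omega)
      obtain ⟨t, ht, _, hteq⟩ := info_some hs
      have hmem : (i + 2, s) ∈ slots (blocks U φ) := by
        have := List.getElem_mem ht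
        rw [hteq] at this
        exact this
      obtain ⟨hlt, hs'⟩ := mem_slots.mp hmem
      rw [block_univ U φ hi] at hs'
      simp only [List.mem_singleton] at hs'
      subst hs'
      refine ⟨x, hx, ?_⟩
      have := hTX hx (i + 2) (U[i]) hs
      simp only [litAt, hs, Option.bind_some, slotLit]
      rw [this]
    have hβT : ∀ x ∈ T, ∀ v b, litAt L x = some (v, b) → β v = b := by
      intro x hx v b hvb
      have hno : ∀ y ∈ T, litAt L y ≠ some (v, !b) := by
        intro y hy hy'
        have hne : x ≠ y := by
          rintro rfl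
          rw [hvb] at hy'
          simp at hy'
        exact (hind x hx y hy hne).2 ⟨v, b, hvb, hy'⟩
      by_cases hv : v ∈ U
      · simp only [hβ, if_pos hv]
        obtain ⟨y, hy, hy'⟩ := huniv v hv
        by_contra hne
        have : α v = !b := by
          cases hα : α v <;> cases b <;> simp_all
        rw [this] at hy'
        exact hno y hy hy'
      · simp only [hβ, if_neg hv]
        cases b
        · simp only [decide_eq_false_iff_not]
          rintro ⟨y, hy, hy'⟩
          exact hno y hy (by simpa using hy')
        · simp only [decide_eq_true_eq]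
          exact ⟨x, hx, hvb⟩
    refine ⟨β, fun i hi => by simp only [hβ, if_pos hi], ?_⟩
    intro c hc
    obtain ⟨j, hj, rfl⟩ := List.getElem_of_mem hc
    obtain ⟨x, hx, s, hs⟩ := hhit (U.length + j + 2) (by omega)
    obtain ⟨t, ht, _, hteq⟩ := info_some hs
    have hmem : (U.length + j + 2, s) ∈ slots (blocks U φ) := by
      have := List.getElem_mem ht
      rw [hteq] at this
      exact this
    obtain ⟨hlt, hs'⟩ := mem_slots.mp hmem
    rw [block_clause U φ hj] at hs'
    simp only [List.mem_map] at hs'
    obtain ⟨l, hl, rfl⟩ := hs'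
    refine ⟨l, hl, ?_⟩
    apply hβT x hx
    simp only [litAt, hs, Option.bind_some, slotLit]
  · intro h X hX
    classical
    -- the universal assignment
    have hidx : ∀ i, ∀ hi : i < U.length, ∃ t, ∃ ht : t < L.length,
        L[t] = (i + 2, some (U[i], none)) := by
      intro v hv
      have : (v + 2, some (U[v], none)) ∈ slots (blocks U φ) :=
        mem_slots.mpr ⟨by omega, by rw [block_univ U φ hv]; simp⟩
      obtain ⟨t, ht, h⟩ := List.getElem_of_mem this
      exact ⟨t, ht, h⟩
    set α : ℕ → Bool := fun v =>
      if hv : ∃ i, ∃ hi : i < U.length, U[i] = v then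
        decide ((slotIdx L (hidx hv.choose hv.choose_spec.choose).choose, true) ∈ X)
      else true with hα
    have hα' : ∀ i, ∀ hi : i < U.length,
        α (U[i]) = decide ((slotIdx L (hidx i hi).choose, true) ∈ X) := by
      intro i hi
      have hv : ∃ i', ∃ hi' : i' < U.length, U[i'] = U[i] := ⟨i, hi, rfl⟩
      simp only [hα, dif_pos hv]
      have h1 : hv.choose = i := by
        have h2 := hv.choose_spec.choose_spec
        exact (List.Nodup.getElem_inj_iff hU).mp h2
      have h3 : ∀ i', ∀ hi' : i' < U.length, i' = i →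
          (hidx i' hi').choose = (hidx i hi).choose := by
        intro i' hi' h
        subst h
        rfl
      rw [h3 _ hv.choose_spec.choose h1]
    obtain ⟨β, hβα, hβ⟩ := h α
    -- for each block a chosen slot number
    have hch : ∀ b < (blocks U φ).length, ∃ t, ∃ ht : t < L.length, ∃ c : Bool,
        (slotIdx L t, c) ∈ X ∧ L[t].1 = b ∧
          ∀ v bb, slotLit L[t].2 c = some (v, bb) → β v = bb := by
      intro b hb
      by_cases hb2 : b < 2
      · have hmem : (b, (none : Slot)) ∈ slots (blocks U φ) := by
          interval_cases b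
          · exact mem_slots.mpr ⟨hb, mem_block0 U φ⟩
          · exact mem_slots.mpr ⟨hb, mem_block1 U φ⟩
        obtain ⟨t, ht, hteq⟩ := List.getElem_of_mem hmem
        obtain ⟨c, hc⟩ := hX (slotIdx L t)
        have hteq' : L[t]'ht = (b, none) := hteq
        refine ⟨t, ht, c, hc, by rw [hteq'], ?_⟩
        intro v bb hvb
        rw [hteq'] at hvb
        simp [slotLit] at hvb
      · by_cases hbk : b < U.length + 2
        · obtain ⟨v, rfl⟩ : ∃ v, b = v + 2 := ⟨b - 2, by omega⟩
          have hv : v < U.length := by omega
          obtain ⟨ht, hteq⟩ := (hidx v hv).choose_spec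
          refine ⟨(hidx v hv).choose, ht, α (U[v]), ?_, by rw [hteq], ?_⟩
          · by_cases hX' : (slotIdx L (hidx v hv).choose, true) ∈ X
            · have : α (U[v]) = true := by rw [hα' v hv]; exact decide_eq_true hX'
              rw [this]; exact hX'
            · have : α (U[v]) = false := by rw [hα' v hv]; exact decide_eq_false hX'
              rw [this]
              obtain ⟨c, hc⟩ := hX (slotIdx L (hidx v hv).choose)
              cases c
              · exact hc
              · exact absurd hc hX'
          · intro v' bb hvb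
            rw [hteq] at hvb
            simp only [slotLit, Option.some.injEq, Prod.mk.injEq] at hvb
            rw [← hvb.1, ← hvb.2]
            exact hβα _ (List.getElem_mem hv)
        · obtain ⟨j, rfl⟩ : ∃ j, b = U.length + j + 2 := ⟨b - U.length - 2, by omega⟩
          have hj : j < φ.length := by omega
          obtain ⟨l, hl, hβl⟩ := hβ _ (List.getElem_mem hj)
          have hmem : (U.length + j + 2, (some (l.1, some l.2) : Slot)) ∈
              slots (blocks U φ) := by
            refine mem_slots.mpr ⟨hb, ?_⟩
            rw [block_clause U φ hj]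
            exact List.mem_map.mpr ⟨l, hl, rfl⟩
          obtain ⟨t, ht, hteq⟩ := List.getElem_of_mem hmem
          have hteq' : L[t]'ht = (U.length + j + 2, (some (l.1, some l.2) : Slot)) := hteq
          obtain ⟨c, hc⟩ := hX (slotIdx L t)
          refine ⟨t, ht, c, hc, by rw [hteq'], ?_⟩
          intro v bb hvb
          rw [hteq'] at hvb
          simp only [slotLit, Option.some.injEq, Prod.mk.injEq] at hvb
          rw [← hvb.1, ← hvb.2]
          exact hβl
    choose! tt htt cc hccX htb hlit using hch
    have hinj : ∀ b < (blocks U φ).length, ∀ b' < (blocks U φ).length, b ≠ b' → tt b ≠ tt b' := by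
      intro b hb b' hb' hne heq
      have h1 := htb b hb
      have h2 := htb b' hb'
      apply hne
      rw [← h1, ← h2]
      simp only [heq]
    refine ⟨{x | ∃ b < (blocks U φ).length, x = (slotIdx L (tt b), cc b)}, ?_, ?_, ?_, ?_⟩
    · rintro x ⟨b, hb, rfl⟩
      exact hccX b hb
    · exact ⟨_, 0, by omega, rfl⟩
    · rintro x ⟨b, hb, rfl⟩ y ⟨b', hb', rfl⟩ hne
      have hbb : b ≠ b' := by
        rintro rfl
        exact hne rfl
      have htt' := hinj b hb b' hb' hbb
      refine ⟨not_near_slotIdx (htt b hb) (htt b' hb') htt', ?_⟩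
      rintro ⟨v, bb, h1, h2⟩
      simp only [litAt, info_slotIdx (htt b hb), info_slotIdx (htt b' hb'), Option.bind_some]
        at h1 h2
      have e1 := hlit b hb v bb h1
      have e2 := hlit b' hb' v (!bb) h2
      rw [e1] at e2
      simp at e2
    · rintro x ⟨b, hb, rfl⟩
      have hb' : (b + 1) % (blocks U φ).length < (blocks U φ).length :=
        Nat.mod_lt _ (by omega)
      refine ⟨_, ⟨(b + 1) % (blocks U φ).length, hb', rfl⟩, ?_, ?_⟩
      · refine ⟨L[tt b]'(htt b hb), info_slotIdx (htt b hb), L[tt _]'(htt _ hb'),
          info_slotIdx (htt _ hb'), ?_⟩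
        rw [htb _ hb', htb _ hb]
      · intro h
        have hbb : (b + 1) % (blocks U φ).length ≠ b := by
          by_cases h1 : b + 1 = (blocks U φ).length
          · rw [h1, Nat.mod_self]; omega
          · rw [Nat.mod_eq_of_lt (by omega)]; omega
        have htt' := hinj _ hb' b hb hbb
        have := congrArg ZMod.val h
        rw [slotIdx_val (htt _ hb'), slotIdx_val (htt b hb)] at this
        omega

/-- The ring digraph of `∀∃φ` is kernel-perfect iff the formula is true. -/
theorem kernelPerfect_farc_iff (hU : U.Nodup) :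
    (∀ S : Set (RV (2 * (fslots U φ).length + 1)), ∃ K, IsKernelOn (farc U φ) S K) ↔
      AESat U φ := by
  rw [← cert_iff U φ hU]
  apply kernelPerfect_iff
  · exact ⟨_, rfl⟩
  · have := two_le_length U φ
    omega
  · exact confL_symm _

end Pool.Agent.Lib.MP_8f64b1_lc
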