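import Pool.Agent.Lib.MP_8f64b1_lc.Reduce
import Pool.Agent.Lib.CookLevin.Main
import Pool.Agent.Lib.PolyTime.Decode

/-!
KERNEL-PERFECTNESS is complete for `Π₂ᵖ`.
-/

namespace Pool.Agent.Lib.MP_8f64b1_lc

open N68a2faeb N487b59b3 N793a5b8e Pool.Agent.Lib.PolyTime Pool.Agent.Lib.CookLevin

section

variable {α : Type} [N487b59b3 α]

attribute [local fun_prop] pt_nearB pt_nxtB pt_confB pt_nx pt_attB pt_adj pt_zipIdx

theorem pt_blocksI {U : α → List ℕ} {φ : α → List (List (ℕ × Bool))} (hU : IsPolyTime U)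
    (hφ : IsPolyTime φ) : IsPolyTime (fun a => blocksI (U a) (φ a)) := by
  unfold blocksI
  fun_prop

theorem pt_slotsI {m : α → ℕ} {B : α → List (List (Bool × (Bool × Bool) × ℕ))}
    (hm : IsPolyTime m) (hB : IsPolyTime B) : IsPolyTime (fun a => slotsI (m a) (B a)) := by
  unfold slotsI mkInf
  fun_prop

theorem pt_infos {S : α → List Inf} (hS : IsPolyTime S) :
    IsPolyTime (fun a => infos (S a)) := by
  unfold infos
  fun_prop

theorem pt_recs {I : α → List Inf} (hI : IsPolyTime I) :
    IsPolyTime (fun a => recs (I a)) := by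
  unfold recs
  refine pt_flatMap (pt_zipIdx hI) ?_
  have h1 : IsPolyTime (fun p : α × (Inf × ℕ) => (I p.1).getD (p.2.2 + 1) infN) :=
    pt_getD infN (pt_comp hI pt_fst') (by fun_prop)
  refine pt_map (pt_const _) ?_
  have h2 : IsPolyTime (fun p : (α × (Inf × ℕ)) × (Bool × Bool × Bool) =>
    (I p.1.1).getD (p.1.2.2 + 1) infN) := pt_comp h1 pt_fst'
  fun_prop

theorem pt_toGraph {R : α → List Rec} (hR : IsPolyTime R) :
    IsPolyTime (fun a => toGraph (R a)) := by
  unfold toGraph
  fun_prop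

theorem pt_graphOf {U : α → List ℕ} {φ : α → List (List (ℕ × Bool))} (hU : IsPolyTime U)
    (hφ : IsPolyTime φ) : IsPolyTime (fun a => graphOf (U a) (φ a)) := by
  have h := pt_blocksI hU hφ
  exact pt_toGraph (pt_recs (pt_infos (pt_slotsI (pt_length h) h)))

end

theorem aeSat_iff (U : List ℕ) (φ : List (List (ℕ × Bool))) :
    AESat U φ ↔ ∀ α : ℕ → Bool, ∃ β : ℕ → Bool, (∀ v ∈ U, β v = α v) ∧ Sat β φ := Iff.rfl

theorem kp_iff (x : List Bool) : KERNELPERFECTNESS x = true ↔
    ∃ g : List ℕ × List (ℕ × ℕ), x = bitEncode g ∧ IsDigraph g ∧ KernelPerfect g := by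
  classical
  unfold KERNELPERFECTNESS
  rw [decide_eq_true_iff]

/-- hardness -/
theorem hard (L : DecisionProblem) (hL : L ∈ Pi2) : ManyOneReducible L KERNELPERFECTNESS := by
  obtain ⟨p, q, R, hR, h⟩ := hL
  obtain ⟨U, f, hU, hf, hnd, hUf⟩ := cookLevin_two p q hR
  refine ⟨fun x => bitEncode (graphOf (U x) (f x)), pt_quote (pt_graphOf hU hf), ?_⟩
  intro x
  rw [Bool.eq_iff_iff, h x, hUf x, ← aeSat_iff, ← kernelPerfect_graphOf (hnd x) (f x)]
  rw [kp_iff]
  constructor
  · intro hk
    exact ⟨_, rfl, isDigraph_graphOf _ _, hk⟩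
  · rintro ⟨g, hg, _, hk⟩
    rw [bitEncode_injective hg]
    exact hk

/-- the list has no repetition -/
def nodupB {β : Type} [DecidableEq β] (l : List β) : Bool :=
  l.zipIdx.all fun a => l.zipIdx.all fun b => !(decide (a.1 = b.1)) || decide (a.2 = b.2)

theorem nodupB_iff {β : Type} [DecidableEq β] (l : List β) : nodupB l = true ↔ l.Nodup := by
  unfold nodupB
  simp only [List.all_eq_true, Bool.or_eq_true, Bool.not_eq_true', decide_eq_false_iff_not,
    decide_eq_true_eq]
  rw [List.nodup_iff_injective_getElem]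
  constructor
  · intro h i j hij
    have := h (l[i.val], i.val) (by rw [List.mem_zipIdx_iff_getElem?]; simp)
      (l[j.val], j.val) (by rw [List.mem_zipIdx_iff_getElem?]; simp)
    simp only at this
    rcases this with h1 | h1
    · exact absurd hij h1
    · exact Fin.ext h1
  · rintro h ⟨a, i⟩ hi ⟨b, j⟩ hj
    rw [List.mem_zipIdx_iff_getElem?] at hi hj
    simp only at hi hj ⊢
    obtain ⟨hi', rfl⟩ := List.getElem?_eq_some_iff.mp hi
    obtain ⟨hj', rfl⟩ := List.getElem?_eq_some_iff.mp hj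
    by_cases hab : l[i] = l[j]
    · right
      have := @h ⟨i, hi'⟩ ⟨j, hj'⟩ hab
      simpa using this
    · exact Or.inl hab

theorem pt_nodupB {α β : Type} [N487b59b3 α] [N487b59b3 β] [DecidableEq β] {l : α → List β}
    (hl : IsPolyTime l) : IsPolyTime (fun a => nodupB (l a)) := by
  unfold nodupB
  refine pt_all (pt_zipIdx hl) (pt_all (pt_comp (pt_zipIdx hl) pt_fst') ?_)
  fun_prop

/-- test for digraphs -/
def isDigraphB (g : List ℕ × List (ℕ × ℕ)) : Bool :=
  nodupB g.1 && (nodupB g.2 && g.2.all fun a => decide (a.1 ∈ g.1) && (decide (a.2 ∈ g.1) &&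
    !(decide (a.1 = a.2))))

theorem isDigraphB_iff (g : List ℕ × List (ℕ × ℕ)) : isDigraphB g = true ↔ IsDigraph g := by
  unfold isDigraphB
  simp only [Bool.and_eq_true, nodupB_iff, List.all_eq_true, decide_eq_true_eq,
    Bool.not_eq_true', decide_eq_false_iff_not]
  constructor
  · rintro ⟨h1, h2, h3⟩
    exact ⟨h1, h2, h3⟩
  · rintro ⟨h1, h2, h3⟩
    exact ⟨h1, h2, h3⟩

/-- test for kernels -/
def kernelB (g : List ℕ × List (ℕ × ℕ)) (S K : List ℕ) : Bool :=
  (K.all fun u => decide (u ∈ S)) && ((K.all fun u => K.all fun v => !(decide ((u, v) ∈ g.2))) &&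
    S.all fun v => decide (v ∈ K) || K.any fun w => decide ((v, w) ∈ g.2))

theorem kernelB_iff (g : List ℕ × List (ℕ × ℕ)) (S K : List ℕ) :
    kernelB g S K = true ↔ IsKernel g S.toFinset K.toFinset := by
  unfold kernelB
  simp only [Bool.and_eq_true, List.all_eq_true, decide_eq_true_eq, Bool.not_eq_true',
    decide_eq_false_iff_not, Bool.or_eq_true, List.any_eq_true]
  constructor
  · rintro ⟨h1, h2, h3⟩
    refine ⟨?_, ?_, ?_⟩
    · intro v hv
      rw [List.mem_toFinset] at hv ⊢
      exact h1 v hv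
    · intro u hu v hv
      rw [List.mem_toFinset] at hu hv
      exact h2 u hu v hv
    · intro v hv hvK
      rw [List.mem_toFinset] at hv hvK
      obtain ⟨w, hw, h⟩ := (h3 v hv).resolve_left hvK
      exact ⟨w, List.mem_toFinset.mpr hw, h⟩
  · rintro ⟨h1, h2, h3⟩
    refine ⟨?_, ?_, ?_⟩
    · intro v hv
      exact List.mem_toFinset.mp (h1 (List.mem_toFinset.mpr hv))
    · intro u hu v hv
      exact h2 u (List.mem_toFinset.mpr hu) v (List.mem_toFinset.mpr hv)
    · intro v hv
      by_cases hvK : v ∈ K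
      · exact Or.inl hvK
      · right
        obtain ⟨w, hw, h⟩ := h3 v (List.mem_toFinset.mpr hv) (by rwa [List.mem_toFinset])
        exact ⟨w, List.mem_toFinset.mp hw, h⟩

/-- the verifier -/
noncomputable def verif (a : List Bool × List Bool × List Bool) : Bool :=
  (dec (List ℕ × List (ℕ × ℕ)) a.1).any fun g => isDigraphB g &&
    (dec (List ℕ) a.2.1).all fun S => !(S.all fun v => decide (v ∈ g.1)) ||
      (dec (List ℕ) a.2.2).any fun K => kernelB g S K

theorem pt_isDigraphB {α : Type} [N487b59b3 α] {g : α → List ℕ × List (ℕ × ℕ)}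
    (hg : IsPolyTime g) : IsPolyTime (fun a => isDigraphB (g a)) := by
  have h1 := pt_nodupB (pt_fst hg)
  have h2 := pt_nodupB (pt_snd hg)
  unfold isDigraphB
  fun_prop

theorem pt_kernelB {α : Type} [N487b59b3 α] {g : α → List ℕ × List (ℕ × ℕ)}
    {S K : α → List ℕ} (hg : IsPolyTime g) (hS : IsPolyTime S) (hK : IsPolyTime K) :
    IsPolyTime (fun a => kernelB (g a) (S a) (K a)) := by
  have e0 : IsPolyTime (fun x : (α × ℕ) × ℕ => decide ((x.1.2, x.2) ∈ (g x.1.1).2)) := by
    refine pt_congr (pt_mem (β := ℕ × ℕ) (pt_pair (pt_snd pt_fst') pt_snd')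
      (pt_snd (pt_comp hg (pt_fst pt_fst')))) (fun x => ?_)
    by_cases h : (x.1.2, x.2) ∈ (g x.1.1).2 <;> simp [h]
  have e1 : IsPolyTime (fun a => (K a).all fun u => decide (u ∈ S a)) :=
    pt_all hK (pt_mem pt_snd' (pt_comp hS pt_fst'))
  have e2 : IsPolyTime (fun a => (K a).all fun u => (K a).all fun v =>
      !(decide ((u, v) ∈ (g a).2))) :=
    pt_all hK (pt_all (pt_comp hK pt_fst') (pt_not e0))
  have e3 : IsPolyTime (fun a => (S a).all fun v => decide (v ∈ K a) ||
      (K a).any fun w => decide ((v, w) ∈ (g a).2)) :=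
    pt_all hS (pt_or (pt_mem pt_snd' (pt_comp hK pt_fst'))
      (pt_any (pt_comp hK pt_fst') e0))
  unfold kernelB
  exact pt_and e1 (pt_and e2 e3)

theorem pt_verif : IsPolyTime verif := by
  unfold verif
  refine pt_any (by fun_prop) (pt_and (pt_isDigraphB (by fun_prop)) (pt_all (by fun_prop)
    (pt_or (by fun_prop) (pt_any (by fun_prop) (pt_kernelB (by fun_prop) (by fun_prop)
      (by fun_prop))))))

theorem sz_filter_le {β : Type} [N487b59b3 β] (l : List β) (p : β → Bool) :
    sz (l.filter p) ≤ sz l := by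
  induction l with
  | nil => exact le_rfl
  | cons a l ih =>
    rw [List.filter_cons]
    split_ifs
    · rw [sz_cons, sz_cons]; omega
    · rw [sz_cons]; omega

theorem mem_pi2 : KERNELPERFECTNESS ∈ Pi2 := by
  classical
  refine ⟨Polynomial.X, Polynomial.X, verif, pt_verif, ?_⟩
  intro x
  rw [kp_iff]
  simp only [Polynomial.eval_X]
  have hsz : ∀ (g : List ℕ × List (ℕ × ℕ)) (S : Finset ℕ), x = bitEncode g →
      (bitEncode (g.1.filter fun v => decide (v ∈ S))).length ≤ x.length := by
    intro g S hg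
    have h1 := sz_filter_le g.1 (fun v => decide (v ∈ S))
    have h2 : x.length = 2 * sz g.1 + 1 + sz g.2 := by rw [hg]; exact sz_pair g.1 g.2
    change sz _ ≤ _
    omega
  have htf : ∀ (g : List ℕ × List (ℕ × ℕ)) (S : Finset ℕ), (∀ v ∈ S, v ∈ g.1) →
      (g.1.filter fun v => decide (v ∈ S)).toFinset = S := by
    intro g S hS
    ext v
    rw [List.mem_toFinset, List.mem_filter]
    constructor
    · intro h; simpa using h.2
    · intro h; exact ⟨hS v h, by simpa using h⟩
  constructor
  · rintro ⟨g, hg, hd, hk⟩ u _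
    by_cases hu : ∃ S : List ℕ, u = bitEncode S ∧ ∀ v ∈ S, v ∈ g.1
    · obtain ⟨S, hSu, hS⟩ := hu
      obtain ⟨K, hK⟩ := hk.kernel S.toFinset (by
        intro v hv
        exact hS v (List.mem_toFinset.mp hv))
      have hKg : ∀ v ∈ K, v ∈ g.1 := fun v hv => hS v (List.mem_toFinset.mp (hK.subset hv))
      refine ⟨bitEncode (g.1.filter fun v => decide (v ∈ K)), hsz g K hg, ?_⟩
      unfold verif
      simp only [hg, hSu, dec_bitEncode, List.any_cons, List.any_nil, Bool.or_false,
        List.all_cons, List.all_nil, Bool.and_true]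
      rw [Bool.and_eq_true, isDigraphB_iff, Bool.or_eq_true, kernelB_iff, htf g K hKg]
      exact ⟨hd, Or.inr hK⟩
    · refine ⟨[], by simp, ?_⟩
      unfold verif
      simp only [hg, dec_bitEncode, List.any_cons, List.any_nil, Bool.or_false]
      rw [Bool.and_eq_true, isDigraphB_iff]
      refine ⟨hd, ?_⟩
      rw [List.all_eq_true]
      intro S hS
      rw [mem_dec] at hS
      rw [Bool.or_eq_true]
      left
      rw [Bool.not_eq_true', Bool.eq_false_iff]
      intro h
      apply hu
      refine ⟨S, hS, ?_⟩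
      simpa using h
  · intro h
    obtain ⟨w, _, hw⟩ := h [] (by simp)
    unfold verif at hw
    rw [List.any_eq_true] at hw
    obtain ⟨g, hg, hw⟩ := hw
    rw [mem_dec] at hg
    replace hg : x = bitEncode g := hg
    rw [Bool.and_eq_true, isDigraphB_iff] at hw
    refine ⟨g, hg, hw.1, ⟨?_⟩⟩
    intro S hS
    obtain ⟨w, _, hw⟩ := h (bitEncode (g.1.filter fun v => decide (v ∈ S))) (hsz g S hg)
    unfold verif at hw
    simp only [hg, dec_bitEncode, List.any_cons, List.any_nil, Bool.or_false,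
        List.all_cons, List.all_nil, Bool.and_true] at hw
    rw [Bool.and_eq_true, Bool.or_eq_true] at hw
    rcases hw.2 with h1 | h1
    · exfalso
      rw [Bool.not_eq_true', Bool.eq_false_iff] at h1
      apply h1
      rw [List.all_eq_true]
      intro v hv
      rw [List.mem_filter] at hv
      simpa using hv.1
    · rw [List.any_eq_true] at h1
      obtain ⟨K, _, hK⟩ := h1
      rw [kernelB_iff, htf g S hS] at hK
      exact ⟨K.toFinset, hK⟩

end Pool.Agent.Lib.MP_8f64b1_lc
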