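import Pool.Agent.Lib.MP_8f64b1_lc.Encode

/-!
The ring digraph as lists, and its kernel-perfectness.
-/

namespace Pool.Agent.Lib.MP_8f64b1_lc

open RV N68a2faeb N487b59b3 Pool.Agent.Lib.PolyTime

/-- data of the blocks -/
def blocksI (U : List ℕ) (φ : List (List (ℕ × Bool))) : List (List (Bool × (Bool × Bool) × ℕ)) :=
  [(false, (false, false), 0)] :: [(false, (false, false), 0)] ::
    ((U.map fun v => [(true, (true, false), v)]) ++
      φ.map fun c => c.map fun l => (true, (false, l.2), l.1))

theorem blocksI_eq (U : List ℕ) (φ : List (List (ℕ × Bool))) :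
    blocksI U φ = (blocks U φ).map fun b => b.map slotData := by
  simp [blocksI, blocks, slotData, Function.comp_def]

/-- data of the slots -/
def slotsI (m : ℕ) (B : List (List (Bool × (Bool × Bool) × ℕ))) : List Inf :=
  B.zipIdx.flatMap fun p => p.1.map fun d => mkInf m d p.2

theorem slotsI_eq (m : ℕ) (B : List (List Slot)) :
    slotsI m (B.map fun b => b.map slotData) = (slots B).map fun p => encInf m (some p) := by
  unfold slotsI slots
  rw [List.zipIdx_map, List.flatMap_map, List.map_flatMap]
  congr 1
  funext p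
  simp [Function.comp_def, encInf]

/-- data of all indices -/
def infos (S : List Inf) : List Inf := infN :: S.flatMap fun x => [x, infN]

theorem length_infos (S : List Inf) : (infos S).length = 2 * S.length + 1 := by
  simp [infos, List.length_flatMap, mul_comm]

theorem infos_cons (x : Inf) (S : List Inf) : infos (x :: S) = infN :: x :: infos S := rfl

theorem infos_getElem? (m : ℕ) : ∀ (L : List (ℕ × Slot)) (i : ℕ), i < 2 * L.length + 1 →
    (infos (L.map fun p => encInf m (some p)))[i]? =
      some (encInf m (if i % 2 = 1 then L[i / 2]? else none)) := by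
  intro L
  induction L with
  | nil =>
    intro i hi
    have : i = 0 := by simp at hi; omega
    subst this
    rfl
  | cons p L ih =>
    intro i hi
    rw [List.map_cons, infos_cons]
    match i with
    | 0 => rfl
    | 1 => rfl
    | i + 2 =>
      rw [List.getElem?_cons_succ, List.getElem?_cons_succ, ih i (by simp at hi; omega)]
      have h1 : (i + 2) % 2 = i % 2 := by omega
      have h2 : (i + 2) / 2 = i / 2 + 1 := by omega
      rw [h1, h2, List.getElem?_cons_succ]

theorem infos_getElem?_val (m : ℕ) (L : List (ℕ × Slot)) (i : ZMod (2 * L.length + 1)) :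
    (infos (L.map fun p => encInf m (some p)))[i.val]? = some (encInf m (info L i)) :=
  infos_getElem? m L i.val (ZMod.val_lt i)

/-- kinds of vertices: `q i false`, `q i true`, `d i`, `w i false`, `w i true` -/
def kinds : List (Bool × Bool × Bool) :=
  [(true, true, false), (true, true, true), (true, false, false), (false, false, false),
    (false, false, true)]

/-- the list of the records -/
def recs (I : List Inf) : List Rec :=
  I.zipIdx.flatMap fun e => kinds.map fun k =>
    (k, (e.2, nx I.length e.2, nx I.length (nx I.length e.2)), (e.1, I.getD (e.2 + 1) infN))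

theorem val_succ {n : ℕ} [NeZero n] (i : ZMod n) : (i + 1).val = nx n i.val := by
  rw [nx_mod (ZMod.val_lt i), ZMod.val_add, ZMod.val_one_eq_one_mod, Nat.add_mod_mod]

theorem recTail_eq (m : ℕ) (L : List (ℕ × Slot)) (i : ZMod (2 * L.length + 1)) (I : List Inf)
    (hI : I = infos (L.map fun p => encInf m (some p))) :
    recTail m L i = ((i.val, nx I.length i.val, nx I.length (nx I.length i.val)),
      (encInf m (info L i), I.getD (i.val + 1) infN)) := by
  have hlen : I.length = 2 * L.length + 1 := by rw [hI, length_infos, List.length_map]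
  unfold recTail
  rw [hlen, val_succ (i + 1), val_succ i]
  have h : encInf m (info L (i + 1)) = I.getD (i.val + 1) infN := by
    by_cases h1 : i.val + 1 = 2 * L.length + 1
    · have h2 : (i + 1).val = 0 := by rw [val_succ, nx, if_pos h1]
      have h3 : info L (i + 1) = none := by
        unfold info
        rw [h2]
        simp
      have h4 : I.getD (i.val + 1) infN = infN := by
        rw [List.getD_eq_getElem?_getD, List.getElem?_eq_none (by omega)]
        rfl
      rw [h3, h4]
      rfl
    · have h2 : (i + 1).val = i.val + 1 := by rw [val_succ, nx, if_neg h1]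
      have h3 := infos_getElem?_val m L (i + 1)
      rw [h2, ← hI] at h3
      rw [List.getD_eq_getElem?_getD, h3]
      rfl
  rw [h]

theorem mem_recs (m : ℕ) (L : List (ℕ × Slot)) (I : List Inf)
    (hI : I = infos (L.map fun p => encInf m (some p))) (r : Rec) :
    r ∈ recs I ↔ ∃ x : RV (2 * L.length + 1), r = enc m L x := by
  have hlen : I.length = 2 * L.length + 1 := by rw [hI, length_infos, List.length_map]
  unfold recs
  rw [List.mem_flatMap]
  constructor
  · rintro ⟨⟨e, i⟩, he, hr⟩
    rw [List.mem_map] at hr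
    obtain ⟨k, hk, rfl⟩ := hr
    rw [List.mem_zipIdx_iff_getElem?] at he
    simp only at he
    have hi : i < 2 * L.length + 1 := by
      rw [← hlen]
      exact (List.getElem?_eq_some_iff.mp he).1
    obtain ⟨j, rfl⟩ : ∃ j : ZMod (2 * L.length + 1), i = j.val := by
      refine ⟨(i : ZMod (2 * L.length + 1)), ?_⟩
      rw [ZMod.val_natCast, Nat.mod_eq_of_lt hi]
    have h3 := infos_getElem?_val m L j
    rw [← hI, he, Option.some.injEq] at h3
    simp only
    rw [h3, ← recTail_eq m L j I hI]
    simp only [kinds, List.mem_cons, List.not_mem_nil, or_false] at hk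
    rcases hk with rfl | rfl | rfl | rfl | rfl
    · exact ⟨.q j false, rfl⟩
    · exact ⟨.q j true, rfl⟩
    · exact ⟨.d j, rfl⟩
    · exact ⟨.w j false, rfl⟩
    · exact ⟨.w j true, rfl⟩
  · rintro ⟨x, rfl⟩
    have key : ∀ (j : ZMod (2 * L.length + 1)) (k : Bool × Bool × Bool), k ∈ kinds →
        ∃ a ∈ I.zipIdx, ((k, recTail m L j) : Rec) ∈ kinds.map fun k =>
          ((k, (a.2, nx I.length a.2, nx I.length (nx I.length a.2)),
            (a.1, I.getD (a.2 + 1) infN)) : Rec) := by
      intro j k hk
      refine ⟨(encInf m (info L j), j.val), ?_, ?_⟩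
      · rw [List.mem_zipIdx_iff_getElem?, hI]
        exact infos_getElem?_val m L j
      · rw [List.mem_map]
        refine ⟨k, hk, ?_⟩
        simp only
        rw [recTail_eq m L j I hI]
    rcases x with ⟨i, b⟩ | i | ⟨i, c⟩
    · cases b
      · exact key i (true, true, false) (by simp [kinds])
      · exact key i (true, true, true) (by simp [kinds])
    · exact key i (true, false, false) (by simp [kinds])
    · cases c
      · exact key i (false, false, false) (by simp [kinds])
      · exact key i (false, false, true) (by simp [kinds])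

theorem nodup_kinds : kinds.Nodup := by decide

theorem nodup_recs (I : List Inf) : (recs I).Nodup := by
  unfold recs
  rw [List.nodup_flatMap]
  constructor
  · intro e _
    refine List.Nodup.map ?_ nodup_kinds
    intro k k' h
    exact (Prod.mk.injEq _ _ _ _ ▸ h : _ ∧ _).1
  · rw [List.pairwise_iff_getElem]
    intro i j hi hj hij
    rw [Function.onFun, List.disjoint_left]
    intro r hr hr'
    simp only [List.getElem_zipIdx, List.mem_map] at hr hr'
    obtain ⟨k, _, rfl⟩ := hr
    obtain ⟨k', _, h⟩ := hr'
    simp only [Prod.mk.injEq] at h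
    omega

/-- the digraph with vertex set `R.map name` -/
def toGraph (R : List Rec) : List ℕ × List (ℕ × ℕ) :=
  (R.map fun r => name r, R.flatMap fun r => (R.filter fun s => adj r s).map fun s =>
    (name r, name s))

theorem mem_toGraph_fst {R : List Rec} {v : ℕ} : v ∈ (toGraph R).1 ↔ ∃ r ∈ R, name r = v := by
  simp only [toGraph, List.mem_map]

theorem mem_toGraph_snd {R : List Rec} {r s : Rec} : (name r, name s) ∈ (toGraph R).2 ↔
    r ∈ R ∧ s ∈ R ∧ adj r s = true := by
  simp only [toGraph, List.mem_flatMap, List.mem_map, List.mem_filter, Prod.mk.injEq]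
  constructor
  · rintro ⟨r', hr', s', ⟨hs', h⟩, h1, h2⟩
    have h3 : r' = r := name_injective h1
    have h4 : s' = s := name_injective h2
    subst h3 h4
    exact ⟨hr', hs', h⟩
  · rintro ⟨h1, h2, h3⟩
    exact ⟨r, h1, s, ⟨h2, h3⟩, rfl, rfl⟩

theorem isDigraph_toGraph {R : List Rec} (hR : R.Nodup) (hirr : ∀ r ∈ R, adj r r = false) :
    IsDigraph (toGraph R) := by
  have hinj : Function.Injective (fun r : Rec => name r) := name_injective
  constructor
  · exact hR.map hinj
  · unfold toGraph
    rw [List.nodup_flatMap]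
    constructor
    · intro r _
      refine List.Nodup.map ?_ (hR.filter _)
      intro s s' h
      exact name_injective (Prod.mk.injEq _ _ _ _ ▸ h : _ ∧ _).2
    · refine List.Pairwise.imp ?_ hR
      intro r r' hne
      rw [Function.onFun, List.disjoint_left]
      intro a ha ha'
      simp only [List.mem_map] at ha ha'
      obtain ⟨s, _, rfl⟩ := ha
      obtain ⟨s', _, h⟩ := ha'
      simp only [Prod.mk.injEq] at h
      exact hne (name_injective h.1).symm
  · intro a ha
    simp only [toGraph, List.mem_flatMap, List.mem_map, List.mem_filter] at ha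
    obtain ⟨r, hr, s, ⟨hs, h⟩, rfl⟩ := ha
    refine ⟨mem_toGraph_fst.mpr ⟨r, hr, rfl⟩, mem_toGraph_fst.mpr ⟨s, hs, rfl⟩, ?_⟩
    intro heq
    have h1 : r = s := name_injective heq
    subst h1
    rw [hirr r hr] at h
    simp at h

theorem kernelPerfect_toGraph {V : Type} {A : V → V → Prop} {f : V → Rec}
    (hf : Function.Injective f) {R : List Rec} (hR : ∀ r, r ∈ R ↔ ∃ x, r = f x)
    (hA : ∀ x y, adj (f x) (f y) = true ↔ A x y) :
    KernelPerfect (toGraph R) ↔ ∀ S : Set V, ∃ K, IsKernelOn A S K := by
  classical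
  have hinj : Function.Injective (fun x => name (f x)) := fun x y h => hf (name_injective h)
  have hadj : ∀ x y, (name (f x), name (f y)) ∈ (toGraph R).2 ↔ A x y := by
    intro x y
    rw [mem_toGraph_snd, hA]
    constructor
    · exact fun h => h.2.2
    · exact fun h => ⟨(hR _).mpr ⟨x, rfl⟩, (hR _).mpr ⟨y, rfl⟩, h⟩
  have hV : ∀ v, v ∈ (toGraph R).1 ↔ ∃ x, name (f x) = v := by
    intro v
    rw [mem_toGraph_fst]
    constructor
    · rintro ⟨r, hr, rfl⟩
      obtain ⟨x, rfl⟩ := (hR r).mp hr
      exact ⟨x, rfl⟩
    · rintro ⟨x, rfl⟩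
      exact ⟨f x, (hR _).mpr ⟨x, rfl⟩, rfl⟩
  constructor
  · intro h S
    obtain ⟨K, hK⟩ := h.kernel ((toGraph R).1.toFinset.filter fun v => ∃ x ∈ S, name (f x) = v)
      (by
        intro v hv
        rw [Finset.mem_filter, List.mem_toFinset] at hv
        exact hv.1)
    have hmem : ∀ x, name (f x) ∈ ((toGraph R).1.toFinset.filter fun v =>
        ∃ x ∈ S, name (f x) = v) ↔ x ∈ S := by
      intro x
      rw [Finset.mem_filter, List.mem_toFinset, hV]
      constructor
      · rintro ⟨_, y, hy, hxy⟩
        rw [← hinj hxy]; exact hy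
      · intro hx
        exact ⟨⟨x, rfl⟩, x, hx, rfl⟩
    refine ⟨{x | name (f x) ∈ K}, ?_, ?_, ?_⟩
    · intro x hx
      exact (hmem x).mp (hK.subset hx)
    · intro x hx y hy hxy
      exact hK.independent _ hx _ hy ((hadj x y).mpr hxy)
    · intro x hx hxK
      obtain ⟨w, hw, hxw⟩ := hK.absorbing (name (f x)) ((hmem x).mpr hx) hxK
      have hw' := hK.subset hw
      rw [Finset.mem_filter] at hw'
      obtain ⟨_, y, _, rfl⟩ := hw'
      exact ⟨y, hw, (hadj x y).mp hxw⟩
  · intro h
    constructor
    intro S hS
    obtain ⟨K, hK1, hK2, hK3⟩ := h {x | name (f x) ∈ S}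
    refine ⟨S.filter fun v => ∃ x ∈ K, name (f x) = v, ?_, ?_, ?_⟩
    · exact Finset.filter_subset _ _
    · intro u hu v hv huv
      rw [Finset.mem_filter] at hu hv
      obtain ⟨_, x, hx, rfl⟩ := hu
      obtain ⟨_, y, hy, rfl⟩ := hv
      exact hK2 x hx y hy ((hadj x y).mp huv)
    · intro v hv hvK
      obtain ⟨x, rfl⟩ := (hV v).mp (hS v hv)
      have hxK : x ∉ K := by
        intro hx
        apply hvK
        rw [Finset.mem_filter]
        exact ⟨hv, x, hx, rfl⟩
      obtain ⟨y, hy, hxy⟩ := hK3 x hv hxK
      refine ⟨name (f y), ?_, (hadj x y).mpr hxy⟩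
      rw [Finset.mem_filter]
      exact ⟨hK1 hy, y, hy, rfl⟩

/-- the digraph of a formula -/
def graphOf (U : List ℕ) (φ : List (List (ℕ × Bool))) : List ℕ × List (ℕ × ℕ) :=
  toGraph (recs (infos (slotsI (blocksI U φ).length (blocksI U φ))))

theorem recs_graphOf (U : List ℕ) (φ : List (List (ℕ × Bool))) :
    infos (slotsI (blocksI U φ).length (blocksI U φ)) =
      infos ((fslots U φ).map fun p => encInf (blocks U φ).length (some p)) := by
  rw [blocksI_eq, slotsI_eq, List.length_map]
  rfl

theorem fslots_lt (U : List ℕ) (φ : List (List (ℕ × Bool))) :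
    ∀ p ∈ fslots U φ, p.1 < (blocks U φ).length := by
  rintro ⟨b, s⟩ hp
  exact (mem_slots.mp hp).1

theorem isDigraph_graphOf (U : List ℕ) (φ : List (List (ℕ × Bool))) :
    IsDigraph (graphOf U φ) := by
  refine isDigraph_toGraph (nodup_recs _) ?_
  intro r hr
  obtain ⟨x, rfl⟩ := (mem_recs _ _ _ (recs_graphOf U φ) r).mp hr
  rw [Bool.eq_false_iff]
  intro h
  exact arc_irrefl x ((adj_iff (fslots_lt U φ) x x).mp h)

/-- the digraph of a formula is kernel-perfect iff the formula is true -/
theorem kernelPerfect_graphOf {U : List ℕ} (hU : U.Nodup) (φ : List (List (ℕ × Bool))) :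
    KernelPerfect (graphOf U φ) ↔ AESat U φ := by
  rw [← kernelPerfect_farc_iff U φ hU]
  exact kernelPerfect_toGraph (enc_injective (m := (blocks U φ).length) (L := fslots U φ))
    (mem_recs _ _ _ (recs_graphOf U φ)) (adj_iff (fslots_lt U φ))

section

variable {α : Type} [N487b59b3 α]

theorem pt_nx {m b : α → ℕ} (hm : IsPolyTime m) (hb : IsPolyTime b) :
    IsPolyTime (fun a => nx (m a) (b a)) := by
  have h : IsPolyTime (fun a => cond (decide (b a + 1 = m a)) 0 (b a + 1)) := by fun_prop
  refine pt_congr h (fun a => ?_)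
  unfold nx
  by_cases h : b a + 1 = m a <;> simp [h]

theorem pt_valB {x : α → Inf} {c : α → Bool} (hx : IsPolyTime x) (hc : IsPolyTime c) :
    IsPolyTime (fun a => valB (x a) (c a)) := by
  unfold valB
  fun_prop

theorem pt_confB {x y : α → Inf} {c c' : α → Bool} (hx : IsPolyTime x) (hc : IsPolyTime c)
    (hy : IsPolyTime y) (hc' : IsPolyTime c') :
    IsPolyTime (fun a => confB (x a) (c a) (y a) (c' a)) := by
  have h1 := pt_valB hx hc
  have h2 := pt_valB hy hc'
  unfold confB
  fun_prop

theorem pt_nxtB {x y : α → Inf} (hx : IsPolyTime x) (hy : IsPolyTime y) :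
    IsPolyTime (fun a => nxtB (x a) (y a)) := by
  unfold nxtB
  fun_prop

theorem pt_nearB {i i1 j j1 : α → ℕ} (hi : IsPolyTime i) (hi1 : IsPolyTime i1)
    (hj : IsPolyTime j) (hj1 : IsPolyTime j1) :
    IsPolyTime (fun a => nearB (i a) (i1 a) (j a) (j1 a)) := by
  unfold nearB
  fun_prop

attribute [local fun_prop] pt_nearB pt_nxtB pt_confB pt_nx

theorem pt_attB {r s : α → Rec} (hr : IsPolyTime r) (hs : IsPolyTime s) :
    IsPolyTime (fun a => attB (r a) (s a)) := by
  unfold attB
  fun_prop

attribute [local fun_prop] pt_attB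

theorem pt_adj {r s : α → Rec} (hr : IsPolyTime r) (hs : IsPolyTime s) :
    IsPolyTime (fun a => adj (r a) (s a)) := by
  unfold adj
  fun_prop

end

end Pool.Agent.Lib.MP_8f64b1_lc
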